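import Mathlib

/-!
# A dominated vertex
-/

set_option autoImplicit false
set_option linter.unusedVariables false

open Finset

namespace Pool.Agent.Helper11.K1

/-- a dominated vertex -/
theorem lem_dom {ι : Type*} [Fintype ι] [DecidableEq ι] (M d : ι → ℝ) {t : ℝ} (ht : 0 ≤ t)
    (D F : Finset ι) (hDF : Disjoint D F) (hDn : D.Nonempty) (hMd : ∀ k, 0 ≤ M k * d k)
    (hD : ∀ k ∈ D, t < M k * d k) (hd1 : ∀ k ∈ D, d k ^ 2 < 1)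
    (hN : ∑ k, M k ^ 2 ≤ 1) (hτ : ∑ k, d k ^ 2 ≤ 1)
    (hst : (t - ∑ k, M k * d k) ^ 2 ≤ (1 - ∑ k, M k ^ 2) * (1 - ∑ k, d k ^ 2)) :
    ∑ k ∈ D, ((M k * d k - t) ^ 2 / (1 - d k ^ 2) - t ^ 2) + (1 - ∑ k, M k ^ 2) * ∑ k ∈ F, d k ^ 2 ≤
      (1 - ∑ k, M k ^ 2) - t ^ 2 := by
  obtain ⟨j0, hj0⟩ := hDn
  have hcard : (1 : ℝ) ≤ D.card := by exact_mod_cast Finset.card_pos.2 ⟨j0, hj0⟩
  set Q := ∑ k ∈ F, d k ^ 2 with hQ
  have hQ0 : 0 ≤ Q := sum_nonneg fun k _ => sq_nonneg _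
  have hQ1 : Q ≤ ∑ k, d k ^ 2 := sum_le_univ_sum_of_nonneg fun k => sq_nonneg _
  -- the sum of the `e k`
  have he0 : 0 < ∑ k ∈ D, (M k * d k - t) :=
    sum_pos (fun k hk => by linarith [hD k hk]) ⟨j0, hj0⟩
  have he1 : ∑ k ∈ D, (M k * d k - t) ≤ ∑ k, M k * d k - t := by
    rw [sum_sub_distrib, sum_const, nsmul_eq_mul]
    have h1 : ∑ k ∈ D, M k * d k ≤ ∑ k, M k * d k := sum_le_univ_sum_of_nonneg hMd
    nlinarith
  have he2 : (∑ k ∈ D, (M k * d k - t)) ^ 2 ≤ (1 - ∑ k, M k ^ 2) * (1 - ∑ k, d k ^ 2) := by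
    refine le_trans ?_ hst
    nlinarith
  -- every denominator is at least `τ + Q`
  have hden : ∀ k ∈ D, (1 - ∑ k, d k ^ 2) + Q ≤ 1 - d k ^ 2 := by
    intro k hk
    have h1 : d k ^ 2 + Q ≤ ∑ k, d k ^ 2 := by
      rw [hQ, ← sum_insert (f := fun k => d k ^ 2) (disjoint_left.1 hDF hk)]
      exact sum_le_univ_sum_of_nonneg fun k => sq_nonneg _
    linarith
  have hpos : 0 < (1 - ∑ k, d k ^ 2) + Q := by
    by_contra h
    have h1 : 1 - ∑ k, d k ^ 2 = 0 := by linarith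
    rw [h1, mul_zero] at he2
    nlinarith
  have hsum : ∑ k ∈ D, (M k * d k - t) ^ 2 / (1 - d k ^ 2) ≤
      (∑ k ∈ D, (M k * d k - t)) ^ 2 / ((1 - ∑ k, d k ^ 2) + Q) := by
    calc ∑ k ∈ D, (M k * d k - t) ^ 2 / (1 - d k ^ 2)
        ≤ ∑ k ∈ D, (M k * d k - t) ^ 2 / ((1 - ∑ k, d k ^ 2) + Q) :=
          sum_le_sum fun k hk => div_le_div_of_nonneg_left (sq_nonneg _) hpos (hden k hk)
      _ = (∑ k ∈ D, (M k * d k - t) ^ 2) / ((1 - ∑ k, d k ^ 2) + Q) := by rw [sum_div]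
      _ ≤ _ := div_le_div_of_nonneg_right
          (sum_sq_le_sq_sum_of_nonneg fun k hk => by linarith [hD k hk]) hpos.le
  have hmain : (∑ k ∈ D, (M k * d k - t)) ^ 2 / ((1 - ∑ k, d k ^ 2) + Q) ≤
      (1 - ∑ k, M k ^ 2) * (1 - Q) := by
    rw [div_le_iff₀ hpos]
    refine he2.trans ?_
    have hN0 : 0 ≤ 1 - ∑ k, M k ^ 2 := by linarith
    have h1 : 1 - ∑ k, d k ^ 2 ≤ (1 - Q) * ((1 - ∑ k, d k ^ 2) + Q) := by
      nlinarith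
    calc (1 - ∑ k, M k ^ 2) * (1 - ∑ k, d k ^ 2)
        ≤ (1 - ∑ k, M k ^ 2) * ((1 - Q) * ((1 - ∑ k, d k ^ 2) + Q)) :=
          mul_le_mul_of_nonneg_left h1 hN0
      _ = _ := by ring
  rw [sum_sub_distrib, sum_const, nsmul_eq_mul]
  have h2 : t ^ 2 ≤ D.card * t ^ 2 := by nlinarith [sq_nonneg t]
  nlinarith
end Pool.Agent.Helper11.K1
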