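import Mathlib

/-!
# A vertex of small height
-/

set_option autoImplicit false
set_option linter.unusedVariables false

open Finset

namespace Pool.Agent.Helper11.K1

/-- a vertex of small height -/
theorem lem_one {ι : Type*} [Fintype ι] (M d : ι → ℝ) {t Ma ha : ℝ} (ht : 0 < t)
    (ht2 : 2 * t ^ 2 ≤ 1) (hMa : 0 ≤ Ma) (hMat : Ma ≤ t * ha)
    (hMa1 : Ma ^ 2 < 1) (hMd : ∀ k, 0 ≤ M k * d k)
    (hτ : ∑ k, d k ^ 2 ≤ 1 - ha ^ 2)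
    (hst : (t - Ma * ha - ∑ k, M k * d k) ^ 2 ≤
      (1 - Ma ^ 2 - ∑ k, M k ^ 2) * (1 - ha ^ 2 - ∑ k, d k ^ 2)) :
    ∑ k, (d k ^ 2 - M k * d k / t) ≤ 1 - t ^ 2 - (ha - Ma * t) ^ 2 / (1 - Ma ^ 2) := by
  have hE : 0 < 1 - Ma ^ 2 := by linarith
  have h0 : 0 ≤ ∑ k, M k * d k := sum_nonneg fun k _ => hMd k
  have h1 : 0 ≤ ∑ k, M k ^ 2 := sum_nonneg fun k _ => sq_nonneg _
  rw [sum_sub_distrib, ← sum_div]
  generalize ∑ k, M k * d k = A at *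
  generalize ∑ k, M k ^ 2 = B at *
  generalize ∑ k, d k ^ 2 = C at *
  -- `τ ≥ ρ² / E`
  have h2 : (t - Ma * ha - A) ^ 2 ≤ (1 - Ma ^ 2) * (1 - ha ^ 2 - C) := by
    refine hst.trans (mul_le_mul_of_nonneg_right (by linarith) (by linarith))
  -- `t (r + ρ) ≤ E`
  have h3 : t * (2 * (t - Ma * ha) - A) ≤ 1 - Ma ^ 2 := by
    nlinarith [mul_nonneg hMa (sub_nonneg.2 hMat), mul_nonneg ht.le h0]
  have h4 : (1 - Ma ^ 2) * (C - A / t) ≤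
      (1 - Ma ^ 2) * (1 - t ^ 2) - (ha - Ma * t) ^ 2 := by
    have h5 : A * (t * (2 * (t - Ma * ha) - A)) ≤ A * (1 - Ma ^ 2) :=
      mul_le_mul_of_nonneg_left h3 h0
    have h6 : A * (2 * (t - Ma * ha) - A) ≤ (1 - Ma ^ 2) * (A / t) := by
      rw [← mul_div_assoc, le_div_iff₀ ht]
      nlinarith
    nlinarith
  have h7 : C - A / t ≤ ((1 - Ma ^ 2) * (1 - t ^ 2) - (ha - Ma * t) ^ 2) / (1 - Ma ^ 2) := by
    rw [le_div_iff₀ hE]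
    linarith
  refine h7.trans (le_of_eq ?_)
  field_simp

end Pool.Agent.Helper11.K1
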