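import Pool.Agent.Helper11.K1.Weights
import Pool.Agent.Helper11.K1.One

/-!
# A vertex of small height: the negative shares
-/

open Finset Pool.Agent.Helper71.CE Pool.Agent.Helper88.CE

namespace Pool.Agent.Helper11.K1

variable {V : Type*} [Fintype V] [DecidableEq V]

variable {G : SimpleGraph V} {R : V → V → ℝ} {c : V → ℝ}

/-- the share at a vertex which is not special, towards a vertex which is not special -/
theorem Dat.lam_plain (D : Dat G R c) {i k : V} (hi : ¬ Spec R c i) (hk : ¬ Spec R c k)
    (h : R i k < c i * c k) :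
    (1 - c i ^ 2) * lam R c i k = c k ^ 2 - R i k * c k / c i := by
  obtain ⟨a1, a2, a3, a4, a5, a6, a7, a8⟩ := D.neg h
  rw [lam, if_neg hk, if_neg hi]
  field_simp

open Classical in
/-- a vertex of small height: the negative shares -/
theorem Dat.lam_low {i : V} (D : Dat G R c) (h2 : 2 * c i ^ 2 ≤ 1) :
    ∑ j, (if G.Adj i j ∧ R i j < c i * c j then lam R c i j else 0) ≤ 1 := by
  have hs : 0 < 1 - c i ^ 2 := by nlinarith [sq_nonneg (c i)]
  have hi : ¬ Spec R c i := fun h => absurd h.2 (not_lt.2 h2)
  rcases (D.hc0 i).eq_or_lt with h0 | h0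
  · have e : ∀ j, ¬ (G.Adj i j ∧ R i j < c i * c j) := by
      rintro j ⟨-, h⟩
      rw [← h0, zero_mul] at h
      exact absurd h (not_lt.2 (D.R0 i j))
    rw [Finset.sum_eq_zero fun j _ => if_neg (e j)]
    norm_num
  by_cases hex : ∃ a, (G.Adj i a ∧ R i a < c i * c a) ∧ Spec R c a
  · obtain ⟨a, ⟨haa, han⟩, has⟩ := hex
    obtain ⟨a1, a2, a3, a4, a5, a6, a7, a8⟩ := D.neg han
    set P : V → Prop := fun k => (G.Adj i k ∧ R i k < c i * c k) ∧ k ≠ a with hP
    have hPa : ¬ P a := fun h => h.2 rfl
    obtain ⟨b1, b2, b3⟩ := star_split D.hG D.hR D.h1 D.hc i P (fun k hk => hk.1.1) a haa hPa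
    have hk : ∀ k, P k → ¬ Spec R c k := by
      rintro k ⟨⟨h1, -⟩, h2⟩ h3
      exact h2 (D.spec_unique h1 haa h3 has)
    have h6 := lem_one (fun k => if P k then R i k else 0) (fun k => if P k then c k else 0)
      (t := c i) (Ma := R i a) (ha := c a) h0 h2 (D.R0 i a) han.le (by linarith)
      (by
        intro k
        split_ifs
        · exact mul_nonneg (D.R0 i k) (D.hc0 k)
        · simp)
      b2 b3
    have e1 : ∀ k, (if G.Adj i k ∧ R i k < c i * c k then lam R c i k else 0) =
        if P k ∨ k = a then lam R c i k else 0 := by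
      intro k
      by_cases hka : k = a
      · subst hka
        rw [if_pos ⟨haa, han⟩, if_pos (Or.inr rfl)]
      · by_cases hk2 : G.Adj i k ∧ R i k < c i * c k
        · rw [if_pos hk2, if_pos (Or.inl ⟨hk2, hka⟩)]
        · rw [if_neg hk2, if_neg]
          rintro (h | h)
          · exact hk2 h.1
          · exact hka h
    rw [Finset.sum_congr rfl fun k _ => e1 k, sum_split P hPa]
    have e2 : (1 - c i ^ 2) * ∑ k, (if P k then lam R c i k else 0) =
        ∑ k, ((if P k then c k else 0) ^ 2 -
          (if P k then R i k else 0) * (if P k then c k else 0) / c i) := by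
      rw [Finset.mul_sum]
      refine Finset.sum_congr rfl fun k _ => ?_
      by_cases hPk : P k
      · rw [if_pos hPk, if_pos hPk, if_pos hPk]
        exact D.lam_plain hi (hk k hPk) hPk.1.2
      · rw [if_neg hPk, if_neg hPk, if_neg hPk]
        simp
    have e3 : (1 - c i ^ 2) * lam R c i a = (c a - R i a * c i) ^ 2 / (1 - R i a ^ 2) := by
      rw [lam, if_pos has, psi]
      field_simp
    have h7 : (1 - c i ^ 2) * (lam R c i a + ∑ k, (if P k then lam R c i k else 0)) ≤
        (1 - c i ^ 2) * 1 := by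
      rw [mul_add, e2, e3]
      linarith
    exact le_of_mul_le_mul_left h7 hs
  · have hk : ∀ k, G.Adj i k ∧ R i k < c i * c k → ¬ Spec R c k := fun k h1 h3 => hex ⟨k, h1, h3⟩
    obtain ⟨b1, b2, b3⟩ := star_local D.hG D.hR D.h1 D.hc i
      (fun k => G.Adj i k ∧ R i k < c i * c k) (fun k hk => hk.1)
    have h6 := lem_one (fun k => if G.Adj i k ∧ R i k < c i * c k then R i k else 0)
      (fun k => if G.Adj i k ∧ R i k < c i * c k then c k else 0)
      (t := c i) (Ma := 0) (ha := 0) h0 h2 le_rfl (by simp) (by simp)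
      (by
        intro k
        split_ifs
        · exact mul_nonneg (D.R0 i k) (D.hc0 k)
        · simp)
      (by simpa using b2) (by simpa using b3)
    have e2 : (1 - c i ^ 2) * ∑ k, (if G.Adj i k ∧ R i k < c i * c k then lam R c i k else 0) =
        ∑ k, ((if G.Adj i k ∧ R i k < c i * c k then c k else 0) ^ 2 -
          (if G.Adj i k ∧ R i k < c i * c k then R i k else 0) *
            (if G.Adj i k ∧ R i k < c i * c k then c k else 0) / c i) := by
      rw [Finset.mul_sum]
      refine Finset.sum_congr rfl fun k _ => ?_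
      by_cases hPk : G.Adj i k ∧ R i k < c i * c k
      · rw [if_pos hPk, if_pos hPk, if_pos hPk]
        exact D.lam_plain hi (hk k hPk) hPk.2
      · rw [if_neg hPk, if_neg hPk, if_neg hPk]
        simp
    have h7 : (1 - c i ^ 2) * ∑ k, (if G.Adj i k ∧ R i k < c i * c k then lam R c i k else 0) ≤
        (1 - c i ^ 2) * 1 := by
      rw [e2]
      have : (0 : ℝ) ≤ (0 - 0 * c i) ^ 2 / (1 - 0 ^ 2) := by simp
      linarith
    exact le_of_mul_le_mul_left h7 hs

end Pool.Agent.Helper11.K1
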