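import Pool.Agent.Helper11.K1.Weights
import Pool.Agent.Helper11.K1.Dom

/-!
# The row of a dominated vertex
-/

open Finset Pool.Agent.Helper71.CE Pool.Agent.Helper88.CE

namespace Pool.Agent.Helper11.K1

variable {V : Type*} [Fintype V] [DecidableEq V]
variable {G : SimpleGraph V} {R : V → V → ℝ} {c : V → ℝ}

theorem Dat.row_dom (D : Dat G R c) {i : V} (hi : Domd R c i) :
    ∑ j ∈ univ.erase i, wt G R c i j ≤ 1 := by
  classical
  set M : V → ℝ := fun k => if G.Adj i k then R i k else 0 with hM
  set d : V → ℝ := fun k => if G.Adj i k then c k else 0 with hd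
  set t : ℝ := c i with ht
  have ht0 : 0 ≤ t := D.hc0 i
  set S : ℝ := ∑ k, M k ^ 2 with hS
  obtain ⟨a1, a2, a3⟩ := star_local D.hG D.hR D.h1 D.hc i (fun k => G.Adj i k) (fun k hk => hk)
  have hMa : ∀ k, G.Adj i k → M k = R i k := fun k hk => by rw [hM]; simp only [if_pos hk]
  have hda : ∀ k, G.Adj i k → d k = c k := fun k hk => by rw [hd]; simp only [if_pos hk]
  have hMn : ∀ k, ¬ G.Adj i k → M k = 0 := fun k hk => by rw [hM]; simp only [if_neg hk]
  have hdn : ∀ k, ¬ G.Adj i k → d k = 0 := fun k hk => by rw [hd]; simp only [if_neg hk]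
  -- dominators are neighbours
  have hdomadj : ∀ j, j ≠ i → c i < R i j * c j → G.Adj i j := by
    intro j hj h
    by_contra hn
    rw [D.Rz (Ne.symm hj) hn, zero_mul] at h
    exact absurd h (not_lt.2 ht0)
  set Dm : Finset V := univ.filter (fun k => t < M k * d k) with hDm
  set F : Finset V := univ.filter (fun k => G.Adj i k ∧ R i k < c i * c k) with hF
  have hDadj : ∀ k ∈ Dm, G.Adj i k ∧ t < R i k * c k := by
    intro k hk
    have h := (Finset.mem_filter.1 hk).2
    by_cases hadj : G.Adj i k
    · rw [hMa k hadj, hda k hadj] at h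
      exact ⟨hadj, h⟩
    · rw [hMn k hadj, zero_mul] at h
      exact absurd h (not_lt.2 ht0)
  have hDpos : ∀ k ∈ Dm, 0 < 1 - c k ^ 2 ∧ ¬ R i k < c i * c k := by
    intro k hk
    obtain ⟨hadj, h⟩ := hDadj k hk
    have hW : 0 ≤ 1 - c k ^ 2 := D.s0 k
    have hR0 := D.R0 i k
    have hck := D.hc0 k
    have hm := D.hmin i k
    refine ⟨?_, ?_⟩
    · rcases hW.eq_or_lt with e | e
      · exfalso
        rw [← e, mul_zero] at hm
        have h2 : R i k - c i * c k = 0 := by
          have := le_antisymm hm (sq_nonneg _)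
          exact pow_eq_zero_iff two_ne_zero |>.1 this
        have h3 : R i k * c k = c i := by
          have : R i k = c i * c k := by linarith
          rw [this]
          have : c i * c k * c k = c i * (c k ^ 2) := by ring
          rw [this]
          have : c k ^ 2 = 1 := by linarith
          rw [this, mul_one]
        rw [h3] at h
        exact absurd h (lt_irrefl _)
      · exact e
    · intro h2
      have h3 : R i k * c k ≤ c i * c k * c k := mul_le_mul_of_nonneg_right h2.le hck
      have h4 : c i * c k * c k ≤ c i := by nlinarith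
      linarith
  have hDF : Disjoint Dm F := by
    rw [Finset.disjoint_left]
    intro k hk hkF
    exact (hDpos k hk).2 (Finset.mem_filter.1 hkF).2.2
  have hDn : Dm.Nonempty := by
    obtain ⟨j, hj, h⟩ := hi
    have hadj := hdomadj j hj h
    refine ⟨j, Finset.mem_filter.2 ⟨mem_univ _, ?_⟩⟩
    rw [hMa j hadj, hda j hadj]
    exact h
  have hMd : ∀ k, 0 ≤ M k * d k := by
    intro k
    by_cases hadj : G.Adj i k
    · rw [hMa k hadj, hda k hadj]; exact mul_nonneg (D.R0 i k) (D.hc0 k)
    · rw [hMn k hadj, zero_mul]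
  have key := lem_dom M d ht0 Dm F hDF hDn hMd (fun k hk => (Finset.mem_filter.1 hk).2)
    (fun k hk => by
      rw [hda k (hDadj k hk).1]
      have := (hDpos k hk).1
      linarith) a1 a2 a3
  have hst : 0 < 1 - c i ^ 2 := by
    obtain ⟨j, hj, h⟩ := hi
    have h1 : R i j * c j ≤ 1 := by
      have := mul_le_mul (D.R1 i j) (D.c1 j) (D.hc0 j) zero_le_one
      linarith
    have : c i < 1 := lt_of_lt_of_le h h1
    nlinarith [D.hc0 i]
  have hiS : ¬ Spec R c i := fun h => h.1 hi
  have hN0 : 0 ≤ 1 - S := by rw [hS]; linarith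
  have hSe : S = ∑ k, if k = i then 0 else R i k ^ 2 := by
    rw [hS]
    refine Finset.sum_congr rfl fun k _ => ?_
    by_cases hk : k = i
    · rw [if_pos hk, hk, hMn i (fun h => h.ne rfl)]; ring
    · rw [if_neg hk]
      by_cases hadj : G.Adj i k
      · rw [hMa k hadj]
      · rw [hMn k hadj, D.Rz (Ne.symm hk) hadj]
  -- pointwise bound
  have hpt : ∀ j ∈ univ.erase i, (1 - c i ^ 2) * wt G R c i j ≤ M j ^ 2 +
      (if j ∈ Dm then (M j * d j - t) ^ 2 / (1 - d j ^ 2) - t ^ 2 else 0) +
      (if j ∈ F then (1 - S) * d j ^ 2 else 0) := by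
    intro j hj
    have hji := Finset.ne_of_mem_erase hj
    by_cases hadj : G.Adj i j
    swap
    · have n1 : j ∉ Dm := fun h => hadj (hDadj j h).1
      have n2 : j ∉ F := fun h => hadj (Finset.mem_filter.1 h).2.1
      rw [if_neg n1, if_neg n2, wt, if_neg hadj, hMn j hadj]
      simp
    by_cases hneg : R i j < c i * c j
    · -- negative edge
      have n1 : j ∉ Dm := fun h => (hDpos j h).2 hneg
      have n2 : j ∈ F := Finset.mem_filter.2 ⟨mem_univ _, hadj, hneg⟩
      obtain ⟨b1, b2, b3, b4, b5, b6, b7, b8⟩ := D.neg hneg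
      rw [if_neg n1, if_pos n2, wt, if_pos hadj, if_pos hneg, hMa j hadj, hda j hadj, add_zero]
      have hr : rest R i j = 1 - S + R i j ^ 2 := by rw [rest_eq hji, hSe]
      have hcj1 : c j ^ 2 ≤ 1 := by linarith
      have hR0 := D.R0 i j
      have hlam : (1 - c i ^ 2) * lam R c i j ≤ c j ^ 2 := by
        rw [lam]
        by_cases hsj : Spec R c j
        · rw [if_pos hsj]
          have e : (1 - c i ^ 2) * psi R c i j = (c j - R i j * c i) ^ 2 / (1 - R i j ^ 2) := by
            rw [psi]; field_simp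
          rw [e, div_le_iff₀ b6]
          have h3 : R i j * (c i ^ 2 + c j ^ 2) ≤ c i * c j * 2 :=
            mul_le_mul hneg.le (by nlinarith) (by positivity) (by positivity)
          have h4 := mul_le_mul_of_nonneg_left h3 hR0
          nlinarith
        · rw [if_neg hsj, if_neg hiS]
          have e : (1 - c i ^ 2) * ((c i * c j - R i j) * c j / (c i * (1 - c i ^ 2))) =
              (c i * c j - R i j) * c j / c i := by field_simp
          rw [e, div_le_iff₀ b1]
          have := mul_nonneg hR0 b2.le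
          nlinarith
      rw [hr]
      have h5 : (1 - c i ^ 2) * ((1 - S + R i j ^ 2) * lam R c i j) =
          (1 - S + R i j ^ 2) * ((1 - c i ^ 2) * lam R c i j) := by ring
      rw [h5]
      have h6 : (1 - S + R i j ^ 2) * ((1 - c i ^ 2) * lam R c i j) ≤
          (1 - S + R i j ^ 2) * c j ^ 2 :=
        mul_le_mul_of_nonneg_left hlam (by positivity)
      have h7 : R i j ^ 2 * c j ^ 2 ≤ R i j ^ 2 * 1 :=
        mul_le_mul_of_nonneg_left hcj1 (sq_nonneg _)
      linarith
    · have n2 : j ∉ F := fun h => hneg (Finset.mem_filter.1 h).2.2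
      by_cases hdm : c i < R i j * c j
      · have n1 : j ∈ Dm := Finset.mem_filter.2 ⟨mem_univ _, by rw [hMa j hadj, hda j hadj]; exact hdm⟩
        have b1 := (hDpos j n1).1
        rw [if_pos n1, if_neg n2, wt, if_pos hadj, if_neg hneg, if_pos hdm, hMa j hadj,
          hda j hadj, add_zero, del]
        refine le_of_eq ?_
        rw [ht]
        field_simp
        ring
      · have n1 : j ∉ Dm := fun h => hdm (hDadj j h).2
        rw [if_neg n1, if_neg n2, wt, if_pos hadj, if_neg hneg, if_neg hdm, hMa j hadj]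
        have := mul_nonneg (sq_nonneg (c i)) (sq_nonneg (R i j))
        linarith
  refine le_of_mul_le_mul_left ?_ hst
  rw [Finset.mul_sum, mul_one]
  refine (Finset.sum_le_sum hpt).trans ?_
  rw [Finset.sum_add_distrib, Finset.sum_add_distrib]
  have e1 : ∑ j ∈ univ.erase i, M j ^ 2 = S := by
    rw [hS, ← Finset.add_sum_erase univ (fun k => M k ^ 2) (mem_univ i)]
    rw [hMn i (fun h => h.ne rfl)]
    ring
  have e2 : ∑ j ∈ univ.erase i,
      (if j ∈ Dm then (M j * d j - t) ^ 2 / (1 - d j ^ 2) - t ^ 2 else 0) =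
      ∑ k ∈ Dm, ((M k * d k - t) ^ 2 / (1 - d k ^ 2) - t ^ 2) := by
    rw [← Finset.sum_filter]
    refine Finset.sum_congr ?_ fun _ _ => rfl
    ext k
    rw [Finset.mem_filter, Finset.mem_erase]
    constructor
    · exact fun h => h.2
    · intro h
      exact ⟨⟨(hDadj k h).1.ne.symm, mem_univ _⟩, h⟩
  have e3 : ∑ j ∈ univ.erase i, (if j ∈ F then (1 - S) * d j ^ 2 else 0) =
      (1 - S) * ∑ k ∈ F, d k ^ 2 := by
    rw [← Finset.sum_filter, Finset.mul_sum]
    refine Finset.sum_congr ?_ fun _ _ => rfl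
    ext k
    rw [Finset.mem_filter, Finset.mem_erase]
    constructor
    · exact fun h => h.2
    · intro h
      exact ⟨⟨(Finset.mem_filter.1 h).2.1.ne.symm, mem_univ _⟩, h⟩
  rw [e1, e2, e3]
  have : t ^ 2 = c i ^ 2 := by rw [ht]
  linarith

end Pool.Agent.Helper11.K1
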