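import Pool.Agent.Helper11.K1.Rows
import Pool.Agent.Helper11.K1.LamLow
import Pool.Agent.Helper11.K1.RowDom

/-!
# Edge weights for all triangle-free graphs
-/

open Finset Pool.Agent.Helper71.CE Pool.Agent.Helper88.CE

namespace Pool.Agent.Helper11.K1

variable {V : Type*} [Fintype V] [DecidableEq V]

/-- the weights -/
theorem exists_weights {G : SimpleGraph V} (hG : G.CliqueFree 3)
    {R : V → V → ℝ} (hR : InPG G R) (h1 : ∀ i, R i i = 1) {c : V → ℝ} (hc0 : ∀ i, 0 ≤ c i)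
    (hc : Psd (fun i j => R i j - c i * c j)) :
    ∃ w : V → V → ℝ, (∀ i j, 0 ≤ w i j) ∧ (∀ i, ∑ j ∈ univ.erase i, w i j ≤ 1) ∧
      ∀ i j, i ≠ j → R i j ^ 2 * (R i j - c i * c j) ^ 2 ≤
        w i j * w j i * ((1 - c i ^ 2) * (1 - c j ^ 2)) := by
  classical
  have D : Dat G R c := ⟨hG, hR, h1, hc0, hc⟩
  refine ⟨wt G R c, D.wt0, fun i => ?_, fun i j hij => D.prod hij⟩
  by_cases hd : Domd R c i
  · exact D.row_dom hd
  · by_cases h2 : 1 < 2 * c i ^ 2
    · exact D.row_nd hd (D.lam_spec ⟨hd, h2⟩)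
    · exact D.row_nd hd (Dat.lam_low D (not_lt.1 h2))

end Pool.Agent.Helper11.K1
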