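import Pool.Agent.Helper11.K1.StarAlg

/-!
# The star inequality with one more neighbour
-/

open Finset

namespace Pool.Agent.Helper11.K1

theorem cmp_aux {X Y g e : ℝ} (hY : 0 ≤ Y) (hYX : Y ≤ X) (hXg : X < g) (hge : g ≤ e)
    (he : e ≤ 1) : (1 - Y) * (1 - X / g) ^ 2 ≤ (1 - Y / e) * (1 - X) ^ 2 := by
  have hX0 : 0 ≤ X := hY.trans hYX
  have hg0 : 0 < g := lt_of_le_of_lt hX0 hXg
  have he0 : 0 < e := lt_of_lt_of_le hg0 hge
  have h1 : X / e ≤ X / g := div_le_div_of_nonneg_left hX0 hg0 hge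
  have h2 : 0 ≤ 1 - X / g := by rw [sub_nonneg, div_le_one hg0]; exact hXg.le
  have h3 : (1 - X / g) ^ 2 ≤ (1 - X / e) ^ 2 := pow_le_pow_left₀ h2 (by linarith) 2
  have h4 : (1 - Y) * (1 - X / g) ^ 2 ≤ (1 - Y) * (1 - X / e) ^ 2 :=
    mul_le_mul_of_nonneg_left h3 (by linarith)
  refine h4.trans ?_
  have hXe : X < e := lt_of_lt_of_le hXg hge
  have h5 : (1 - Y) * (e - X) ^ 2 ≤ e * (e - Y) * (1 - X) ^ 2 := by
    have e1 : e * (e - Y) * (1 - X) ^ 2 - (1 - Y) * (e - X) ^ 2 =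
        (1 - e) * ((2 * X - X ^ 2 - Y) * e - (1 - Y) * X ^ 2) := by ring
    have h6 : 0 ≤ 2 * X - X ^ 2 - Y := by nlinarith
    have h7 : (2 * X - X ^ 2 - Y) * X ≤ (2 * X - X ^ 2 - Y) * e :=
      mul_le_mul_of_nonneg_left hXe.le h6
    have h8 : 0 ≤ X * ((X - Y) * (1 - X)) :=
      mul_nonneg hX0 (mul_nonneg (by linarith) (by linarith))
    have h9 : 0 ≤ (2 * X - X ^ 2 - Y) * e - (1 - Y) * X ^ 2 := by nlinarith
    have := mul_nonneg (show (0:ℝ) ≤ 1 - e by linarith) h9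
    linarith
  have e2 : (1 - Y) * (1 - X / e) ^ 2 = (1 - Y) * (e - X) ^ 2 / e ^ 2 := by field_simp
  have e3 : (1 - Y / e) * (1 - X) ^ 2 = e * (e - Y) * (1 - X) ^ 2 / e ^ 2 := by field_simp
  rw [e2, e3]
  exact div_le_div_of_nonneg_right h5 (by positivity)

/-- the same with one more neighbour, in terms of the entries -/
theorem lem_two {ι : Type*} [Fintype ι] (M d : ι → ℝ) {t Mb hb : ℝ} (ht : 0 < t)
    (ht1 : t ^ 2 ≤ 1) (hM0 : ∀ k, 0 ≤ M k) (hd0 : ∀ k, 0 ≤ d k) (hMt : ∀ k, M k ≤ t * d k)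
    (hMb0 : 0 ≤ Mb) (hhb0 : 0 ≤ hb) (hMbt : Mb ≤ t * hb) (hMb1 : Mb ^ 2 < 1) (hhb1 : hb ^ 2 < 1)
    (hMd : ∀ k, M k * d k < t)
    (hmin : (t - Mb * hb) ^ 2 ≤ (1 - Mb ^ 2) * (1 - hb ^ 2))
    (h1 : ∑ k, M k ^ 2 ≤ 1 - Mb ^ 2) (h2 : ∑ k, d k ^ 2 ≤ 1 - hb ^ 2)
    (hst : (t - Mb * hb - ∑ k, M k * d k) ^ 2 ≤
      (1 - Mb ^ 2 - ∑ k, M k ^ 2) * (1 - hb ^ 2 - ∑ k, d k ^ 2)) :
    ∑ k, (t * d k - M k) ^ 2 * (1 - M k ^ 2) / (t - M k * d k) ^ 2 ≤
      1 - t ^ 2 - (hb - Mb * t) ^ 2 / (1 - Mb ^ 2) := by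
  classical
  set q : ℝ := 1 - hb ^ 2 with hq
  set e : ℝ := 1 - Mb ^ 2 with he
  have hq0 : 0 < q := by rw [hq]; linarith
  have he0 : 0 < e := by rw [he]; linarith
  have ht2 : t ≤ 1 := by nlinarith
  set g : ℝ := (t - Mb * hb) / t with hg
  have htg : t * g = t - Mb * hb := by rw [hg]; field_simp
  have hgq : q ≤ g := by
    rw [hg, le_div_iff₀ ht, hq]
    nlinarith [mul_le_mul_of_nonneg_right hMbt hhb0]
  have hg0 : 0 < g := lt_of_lt_of_le hq0 hgq
  have hge : g ≤ e := by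
    rw [hg, div_le_iff₀ ht, he]
    have h3 : Mb * t ≤ hb := by nlinarith
    nlinarith [mul_le_mul_of_nonneg_left h3 hMb0]
  have he1 : e ≤ 1 := by rw [he]; nlinarith [sq_nonneg Mb]
  set x : ι → ℝ := fun k => if d k = 0 then 0 else M k / (t * d k) with hx
  have hdM : ∀ k, d k = 0 → M k = 0 := by
    intro k hk
    have := hMt k
    rw [hk, mul_zero] at this
    exact le_antisymm this (hM0 k)
  have hxM : ∀ k, x k * (t * d k) = M k := by
    intro k
    rw [hx]; simp only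
    split_ifs with h
    · rw [hdM k h, zero_mul]
    · rw [div_mul_cancel₀]
      exact mul_ne_zero ht.ne' h
  have hx0 : ∀ k, 0 ≤ x k := by
    intro k
    rw [hx]; simp only
    split_ifs with h
    · exact le_refl _
    · exact div_nonneg (hM0 k) (mul_nonneg ht.le (hd0 k))
  have hx1 : ∀ k, x k ≤ 1 := by
    intro k
    rw [hx]; simp only
    split_ifs with h
    · exact zero_le_one
    · have : 0 < t * d k := mul_pos ht (lt_of_le_of_ne (hd0 k) (Ne.symm h))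
      rw [div_le_one this]
      exact hMt k
  set p : ι → ℝ := fun k => d k ^ 2 / q with hp
  set m : ι → ℝ := fun k => x k * (q / g) with hm
  have hqg1 : q / g ≤ 1 := by rw [div_le_one hg0]; exact hgq
  have hqg0 : 0 < q / g := div_pos hq0 hg0
  have hm0 : ∀ k, 0 ≤ m k := fun k => mul_nonneg (hx0 k) hqg0.le
  have hmx : ∀ k, m k ≤ x k := fun k => by
    have := mul_le_mul_of_nonneg_left hqg1 (hx0 k)
    rw [mul_one] at this; exact this
  have hm1 : ∀ k, m k ≤ 1 := fun k => (hmx k).trans (hx1 k)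
  have hp0 : ∀ k, 0 ≤ p k := fun k => div_nonneg (sq_nonneg _) hq0.le
  have hpS : ∑ k, p k = (∑ k, d k ^ 2) / q := by rw [hp, Finset.sum_div]
  have hP : ∑ k, p k ≤ 1 := by
    rw [hpS, div_le_one hq0]; exact h2
  have hp1 : ∀ k, p k ≤ 1 := fun k =>
    (Finset.single_le_sum (f := p) (fun k _ => hp0 k) (mem_univ k)).trans hP
  set H : ℝ := (t * g) ^ 2 / (e * q) with hH
  have hH0 : 0 ≤ H := div_nonneg (sq_nonneg _) (mul_nonneg he0.le hq0.le)
  have hH1 : H ≤ 1 := by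
    rw [hH, div_le_one (mul_pos he0 hq0), htg]; exact hmin
  -- the products
  have emp : ∀ k, m k * p k = M k * d k / (t * g) := by
    intro k
    have h3 := hxM k
    rw [hm, hp]; simp only
    rw [← h3]
    field_simp
  have eHm : ∀ k, m k ^ 2 * H * p k = M k ^ 2 / e := by
    intro k
    have h3 := hxM k
    rw [hm, hp, hH]; simp only
    rw [← h3]
    field_simp
  have hst' : H * (1 - ∑ k, m k * p k) ^ 2 ≤ (1 - H * ∑ k, m k ^ 2 * p k) * (1 - ∑ k, p k) := by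
    have e1 : ∑ k, m k * p k = (∑ k, M k * d k) / (t * g) := by
      rw [Finset.sum_congr rfl fun k _ => emp k, Finset.sum_div]
    have e2 : H * ∑ k, m k ^ 2 * p k = (∑ k, M k ^ 2) / e := by
      rw [Finset.mul_sum, Finset.sum_div]
      refine Finset.sum_congr rfl fun k _ => ?_
      rw [← eHm k]; ring
    rw [e1, e2, hpS]
    have htg0 : 0 < t * g := mul_pos ht hg0
    have e3 : H * (1 - (∑ k, M k * d k) / (t * g)) ^ 2 =
        (t * g - ∑ k, M k * d k) ^ 2 / (e * q) := by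
      rw [hH]
      field_simp
    have e4 : (1 - (∑ k, M k ^ 2) / e) * (1 - (∑ k, d k ^ 2) / q) =
        (e - ∑ k, M k ^ 2) * (q - ∑ k, d k ^ 2) / (e * q) := by
      field_simp
    rw [e3, e4, htg]
    exact div_le_div_of_nonneg_right hst (mul_nonneg he0.le hq0.le)
  have key := lem_star p m hp0 hm0 hm1 hP hH0 hH1 hst'
  -- termwise comparison
  have hterm : ∀ k, (t * d k - M k) ^ 2 * (1 - M k ^ 2) / (t - M k * d k) ^ 2 ≤
      q * (p k * (1 - m k) ^ 2 * (1 - m k ^ 2 * H * p k) / (1 - m k * p k) ^ 2) := by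
    intro k
    have hpos : 0 < t - M k * d k := by linarith [hMd k]
    have hY0 : 0 ≤ M k ^ 2 := sq_nonneg _
    have hX : M k ^ 2 ≤ M k * d k / t := by
      rw [le_div_iff₀ ht]
      have h3 := mul_le_mul_of_nonneg_left (hMt k) (hM0 k)
      have h4 : 0 ≤ M k * d k := mul_nonneg (hM0 k) (hd0 k)
      nlinarith
    have hMk1 : M k ^ 2 < 1 := by
      refine lt_of_le_of_lt hX ?_
      rw [div_lt_one ht]; exact hMd k
    have e1 : (t * d k - M k) ^ 2 = t ^ 2 * (d k ^ 2 * (1 - x k) ^ 2) := by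
      rw [← hxM k]; ring
    have e2 : (t - M k * d k) ^ 2 = t ^ 2 * (1 - M k * d k / t) ^ 2 := by
      field_simp
    have hX1 : 0 < 1 - M k * d k / t := by
      rw [sub_pos, div_lt_one ht]; exact hMd k
    have e3 : (t * d k - M k) ^ 2 * (1 - M k ^ 2) / (t - M k * d k) ^ 2 =
        d k ^ 2 * (1 - x k) ^ 2 * ((1 - M k ^ 2) / (1 - M k * d k / t) ^ 2) := by
      rw [e1, e2]
      field_simp
    have e4 : m k * p k = (M k * d k / t) / g := by rw [emp k]; field_simp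
    have e5 : q * (p k * (1 - m k) ^ 2 * (1 - m k ^ 2 * H * p k) / (1 - m k * p k) ^ 2) =
        d k ^ 2 * (1 - m k) ^ 2 * ((1 - M k ^ 2 / e) / (1 - (M k * d k / t) / g) ^ 2) := by
      rw [eHm k, e4, hp]; simp only
      field_simp
    rw [e3, e5]
    have hmpl : m k * p k ≤ 1 := by
      have := mul_le_mul (hm1 k) (hp1 k) (hp0 k) zero_le_one
      linarith
    rcases hmpl.eq_or_lt with h3 | h3
    · -- then `m k = 1`, so `x k = 1`
      have h4 : m k = 1 := by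
        refine le_antisymm (hm1 k) ?_
        rw [← h3]
        have := mul_le_mul_of_nonneg_left (hp1 k) (hm0 k)
        linarith
      have h5 : x k = 1 := le_antisymm (hx1 k) (h4 ▸ hmx k)
      rw [h5, h4]; simp
    · have h4 : (M k * d k / t) / g < 1 := by rw [← e4]; exact h3
      have h5 : M k * d k / t < g := by rwa [div_lt_one hg0] at h4
      have h6 := cmp_aux hY0 hX h5 hge he1
      have h7 : (1 - M k ^ 2) / (1 - M k * d k / t) ^ 2 ≤
          (1 - M k ^ 2 / e) / (1 - (M k * d k / t) / g) ^ 2 := by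
        rw [div_le_div_iff₀ (by positivity) (by
          have : 0 < 1 - (M k * d k / t) / g := by linarith
          positivity)]
        exact h6
      have h8 : (1 - x k) ^ 2 ≤ (1 - m k) ^ 2 :=
        pow_le_pow_left₀ (by linarith [hx1 k]) (by linarith [hmx k]) 2
      refine mul_le_mul (mul_le_mul_of_nonneg_left h8 (sq_nonneg _)) h7 ?_ ?_
      · exact div_nonneg (by linarith) (sq_nonneg _)
      · exact mul_nonneg (sq_nonneg _) (sq_nonneg _)
  calc ∑ k, (t * d k - M k) ^ 2 * (1 - M k ^ 2) / (t - M k * d k) ^ 2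
      ≤ ∑ k, q * (p k * (1 - m k) ^ 2 * (1 - m k ^ 2 * H * p k) / (1 - m k * p k) ^ 2) :=
        Finset.sum_le_sum fun k _ => hterm k
    _ = q * ∑ k, p k * (1 - m k) ^ 2 * (1 - m k ^ 2 * H * p k) / (1 - m k * p k) ^ 2 := by
        rw [Finset.mul_sum]
    _ ≤ q * (1 - H) := mul_le_mul_of_nonneg_left key hq0.le
    _ = 1 - t ^ 2 - (hb - Mb * t) ^ 2 / e := by
        have e6 : q * (1 - H) = q - (t - Mb * hb) ^ 2 / e := by
          rw [hH, htg]; field_simp
        have e7 : (t - Mb * hb) ^ 2 = (t ^ 2 - hb ^ 2) * e + (hb - Mb * t) ^ 2 := by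
          rw [he]; ring
        rw [e6, e7, hq, add_div, mul_div_cancel_right₀ _ he0.ne']
        ring

end Pool.Agent.Helper11.K1
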