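import Pool.Agent.Helper11.K1.Weights
import Pool.Agent.Helper11.K1.Two

/-!
# The rows at vertices which are not dominated
-/

open Finset Pool.Agent.Helper71.CE Pool.Agent.Helper88.CE

namespace Pool.Agent.Helper11.K1

variable {V : Type*} [Fintype V] [DecidableEq V]
variable {G : SimpleGraph V} {R : V → V → ℝ} {c : V → ℝ}

theorem Dat.bes (D : Dat G R c) (i : V) : ∑ k ∈ univ.erase i, R i k ^ 2 ≤ 1 := by
  have h := Pool.Agent.Helper76.CT.bessel D.hG D.hR i
  rw [D.h1 i] at h
  refine le_trans (le_of_eq ?_) h
  refine Finset.sum_congr rfl fun k _ => ?_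
  rw [D.h1, div_one]

open Classical in
/-- a row at a vertex which is not dominated -/
theorem Dat.row_nd (D : Dat G R c) {i : V} (hnd : ¬ Domd R c i)
    (h : ∑ j, (if G.Adj i j ∧ R i j < c i * c j then lam R c i j else 0) ≤ 1) :
    ∑ j ∈ univ.erase i, wt G R c i j ≤ 1 := by
  set neg : V → Prop := fun j => G.Adj i j ∧ R i j < c i * c j with hneg
  have hni : ¬ neg i := fun h => h.1.ne rfl
  set Z : ℝ := 1 - ∑ k ∈ univ.erase i, (if neg k then 0 else R i k ^ 2) with hZ
  have hZ0 : 0 ≤ Z := by
    have := D.bes i
    have h2 : ∑ k ∈ univ.erase i, (if neg k then 0 else R i k ^ 2) ≤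
        ∑ k ∈ univ.erase i, R i k ^ 2 := by
      refine Finset.sum_le_sum fun k _ => ?_
      split_ifs
      · exact sq_nonneg _
      · exact le_refl _
    rw [hZ]; linarith
  have hrest : ∀ j, neg j → rest R i j ≤ Z := by
    intro j hj
    rw [rest, hZ]
    have e : ∑ k, (if k = j ∨ k = i then (0:ℝ) else R i k ^ 2) =
        ∑ k ∈ univ.erase i, (if k = j ∨ k = i then (0:ℝ) else R i k ^ 2) := by
      rw [← Finset.add_sum_erase _ _ (mem_univ i), if_pos (Or.inr rfl), zero_add]
    rw [e]
    refine sub_le_sub_left (Finset.sum_le_sum fun k hk => ?_) 1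
    have hki := Finset.ne_of_mem_erase hk
    by_cases hk2 : neg k
    · rw [if_pos hk2]
      split_ifs
      · exact le_refl _
      · exact sq_nonneg _
    · rw [if_neg hk2, if_neg]
      rintro (e | e)
      · rw [e] at hk2; exact hk2 hj
      · exact hki e
  have hpt : ∀ j ∈ univ.erase i, wt G R c i j ≤
      Z * (if neg j then lam R c i j else 0) + (if neg j then 0 else R i j ^ 2) := by
    intro j hj
    have hji := Finset.ne_of_mem_erase hj
    by_cases hn : neg j
    · rw [if_pos hn, if_pos hn, add_zero, wt, if_pos hn.1, if_pos hn.2]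
      exact mul_le_mul_of_nonneg_right (hrest j hn) (D.lam0 hn.2)
    · rw [if_neg hn, if_neg hn, mul_zero, zero_add, wt]
      by_cases hadj : G.Adj i j
      · have h3 : ¬ R i j < c i * c j := fun h4 => hn ⟨hadj, h4⟩
        have h4 : ¬ c i < R i j * c j := fun h5 => hnd ⟨j, hji, h5⟩
        rw [if_pos hadj, if_neg h3, if_neg h4]
      · rw [if_neg hadj]; exact sq_nonneg _
  refine (Finset.sum_le_sum hpt).trans ?_
  rw [Finset.sum_add_distrib, ← Finset.mul_sum]
  have e : ∑ j ∈ univ.erase i, (if neg j then lam R c i j else 0) =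
      ∑ j, (if neg j then lam R c i j else 0) := by
    rw [← Finset.add_sum_erase _ (fun j => if neg j then lam R c i j else 0) (mem_univ i)]
    simp only [if_neg hni, zero_add]
  rw [e]
  have h2 := mul_le_mul_of_nonneg_left h hZ0
  have e2 : ∑ k ∈ univ.erase i, (if neg k then 0 else R i k ^ 2) = 1 - Z := by rw [hZ]; ring
  rw [e2]
  linarith

theorem Dat.lam_div (D : Dat G R c) {i k : V} (h : R i k < c i * c k) :
    (1 - c i ^ 2) * (del R c i k / psi R c k i) =
      (c i * c k - R i k) ^ 2 * (1 - R i k ^ 2) / (c i - R i k * c k) ^ 2 := by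
  obtain ⟨a1, a2, a3, a4, a5, a6, a7, a8⟩ := D.neg h
  rw [del, psi, ← D.sym i k]
  have e : (R i k - c i * c k) ^ 2 = (c i * c k - R i k) ^ 2 := by ring
  rw [e]
  field_simp

theorem Dat.psi_mul (D : Dat G R c) {i k : V} (h : R i k < c i * c k) :
    (1 - c i ^ 2) * psi R c i k = (c k - R i k * c i) ^ 2 / (1 - R i k ^ 2) := by
  obtain ⟨a1, a2, a3, a4, a5, a6, a7, a8⟩ := D.neg h
  rw [psi]
  field_simp

open Classical in
/-- the shares at a special vertex -/
theorem Dat.lam_spec (D : Dat G R c) {i : V} (hi : Spec R c i) :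
    ∑ j, (if G.Adj i j ∧ R i j < c i * c j then lam R c i j else 0) ≤ 1 := by
  set neg : V → Prop := fun j => G.Adj i j ∧ R i j < c i * c j with hneg
  have hc0 : 0 < c i := by
    rcases (D.hc0 i).eq_or_lt with e | e
    · have := hi.2; rw [← e] at this; norm_num at this
    · exact e
  have hct : c i ^ 2 ≤ 1 := by linarith [D.s0 i]
  by_cases hex : ∃ j, neg j
  swap
  · refine le_trans (le_of_eq (Finset.sum_eq_zero fun j _ => ?_)) zero_le_one
    exact if_neg fun h => hex ⟨j, h⟩
  have hs : 0 < 1 - c i ^ 2 := by
    obtain ⟨j, hj⟩ := hex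
    exact (D.neg hj.2).2.2.1
  refine le_of_mul_le_mul_left ?_ hs
  rw [mul_one, Finset.mul_sum]
  by_cases ha : ∃ a, neg a ∧ Spec R c a
  · obtain ⟨a, ha, has⟩ := ha
    set P : V → Prop := fun k => neg k ∧ k ≠ a with hP
    have hPa : ¬ P a := fun h => h.2 rfl
    obtain ⟨b1, b2, b3⟩ := star_split D.hG D.hR D.h1 D.hc i P (fun k hk => hk.1.1) a ha.1 hPa
    obtain ⟨a1, a2, a3, a4, a5, a6, a7, a8⟩ := D.neg ha.2
    have hm := D.hmin i a
    have key := lem_two (fun k => if P k then R i k else 0) (fun k => if P k then c k else 0)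
      (t := c i) (Mb := R i a) (hb := c a) hc0 hct
      (fun k => by split_ifs; exacts [D.R0 i k, le_refl _])
      (fun k => by split_ifs; exacts [D.hc0 k, le_refl _])
      (fun k => by
        split_ifs with h
        · exact h.1.2.le
        · simp)
      (D.R0 i a) (D.hc0 a) ha.2.le (by linarith) (by linarith)
      (fun k => by
        split_ifs with h
        · have := (D.neg h.1.2).2.2.2.2.2.2.1; linarith
        · simpa using hc0)
      (by nlinarith) b1 b2 b3
    have e1 : ∀ j, (1 - c i ^ 2) * (if neg j then lam R c i j else 0) =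
        (if j = a then (c a - R i a * c i) ^ 2 / (1 - R i a ^ 2) else 0) +
        (c i * (if P j then c j else 0) - (if P j then R i j else 0)) ^ 2 *
          (1 - (if P j then R i j else 0) ^ 2) /
          (c i - (if P j then R i j else 0) * (if P j then c j else 0)) ^ 2 := by
      intro j
      by_cases hja : j = a
      · rw [hja, if_pos ha, if_pos rfl, if_neg hPa, if_neg hPa, lam, if_pos has,
          D.psi_mul ha.2]
        simp
      · by_cases hn : neg j
        · have hPj : P j := ⟨hn, hja⟩
          have hsj : ¬ Spec R c j := fun h => hja (D.spec_unique hn.1 ha.1 h has)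
          rw [if_pos hn, if_neg hja, if_pos hPj, if_pos hPj, lam, if_neg hsj, if_pos hi,
            D.lam_div hn.2, zero_add]
        · have hPj : ¬ P j := fun h => hn h.1
          rw [if_neg hn, if_neg hja, if_neg hPj, if_neg hPj]
          simp
    rw [Finset.sum_congr rfl fun j _ => e1 j, Finset.sum_add_distrib, Finset.sum_ite_eq',
      if_pos (mem_univ a)]
    linarith
  · obtain ⟨b1, b2, b3⟩ := star_local D.hG D.hR D.h1 D.hc i neg (fun k hk => hk.1)
    have key := lem_two (fun k => if neg k then R i k else 0) (fun k => if neg k then c k else 0)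
      (t := c i) (Mb := 0) (hb := 0) hc0 hct
      (fun k => by split_ifs; exacts [D.R0 i k, le_refl _])
      (fun k => by split_ifs; exacts [D.hc0 k, le_refl _])
      (fun k => by
        split_ifs with h
        · exact h.2.le
        · simp)
      (le_refl _) (le_refl _) (by simp) (by norm_num) (by norm_num)
      (fun k => by
        split_ifs with h
        · have := (D.neg h.2).2.2.2.2.2.2.1; linarith
        · simpa using hc0)
      (by simpa using hct) (by simpa using b1) (by simpa using b2) (by simpa using b3)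
    have e1 : ∀ j, (1 - c i ^ 2) * (if neg j then lam R c i j else 0) =
        (c i * (if neg j then c j else 0) - (if neg j then R i j else 0)) ^ 2 *
          (1 - (if neg j then R i j else 0) ^ 2) /
          (c i - (if neg j then R i j else 0) * (if neg j then c j else 0)) ^ 2 := by
      intro j
      by_cases hn : neg j
      · have hsj : ¬ Spec R c j := fun h => ha ⟨j, hn, h⟩
        rw [if_pos hn, if_pos hn, if_pos hn, lam, if_neg hsj, if_pos hi, D.lam_div hn.2]
      · rw [if_neg hn, if_neg hn, if_neg hn]
        simp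
    rw [Finset.sum_congr rfl fun j _ => e1 j]
    simpa using key

end Pool.Agent.Helper11.K1
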