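import Mathlib

/-!
# Scalar inequalities for one edge
-/

namespace Pool.Agent.Helper11.K1

/-- both angles acute -/
theorem scal_acute {R c d : ℝ} (hR0 : 0 ≤ R) (hR1 : R ≤ 1) (h1 : R * d ≤ c) (h2 : R * c ≤ d)
    (hW : 0 ≤ R - c * d) (hc1 : c ^ 2 ≤ 1) (hd1 : d ^ 2 ≤ 1)
    (hm : (R - c * d) ^ 2 ≤ (1 - c ^ 2) * (1 - d ^ 2)) :
    (R - c * d) ^ 2 ≤ R ^ 2 * ((1 - c ^ 2) * (1 - d ^ 2)) := by
  rcases hR1.eq_or_lt with hR | hR
  · subst hR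
    simpa using hm
  set g : ℝ := (1 - c ^ 2) * (1 - d ^ 2) - (R - c * d) ^ 2 with hg
  have hg0 : 0 ≤ g := by rw [hg]; linarith
  have hE : 0 < 1 - R ^ 2 := by nlinarith
  have e1 : (R - c * d) * (1 - R ^ 2) = R * g - (d - R * c) * (c - R * d) := by rw [hg]; ring
  have h3 : (R - c * d) * (1 - R ^ 2) ≤ R * g := by
    rw [e1]
    have := mul_nonneg (sub_nonneg.2 h2) (sub_nonneg.2 h1)
    linarith
  have e2 : g = (1 - R ^ 2) * (1 - c ^ 2) - (d - R * c) ^ 2 := by rw [hg]; ring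
  have e3 : g = (1 - R ^ 2) * (1 - d ^ 2) - (c - R * d) ^ 2 := by rw [hg]; ring
  have h4 : g ≤ (1 - R ^ 2) * (1 - c ^ 2) := by rw [e2]; nlinarith [sq_nonneg (d - R * c)]
  have h5 : g ≤ (1 - R ^ 2) * (1 - d ^ 2) := by rw [e3]; nlinarith [sq_nonneg (c - R * d)]
  have h6 : g * g ≤ ((1 - R ^ 2) * (1 - c ^ 2)) * ((1 - R ^ 2) * (1 - d ^ 2)) :=
    mul_le_mul h4 h5 hg0 (hg0.trans h4)
  have h7 : ((R - c * d) * (1 - R ^ 2)) * ((R - c * d) * (1 - R ^ 2)) ≤ (R * g) * (R * g) :=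
    mul_self_le_mul_self (mul_nonneg hW hE.le) h3
  have h8 : (R * g) * (R * g) ≤ R ^ 2 * (((1 - R ^ 2) * (1 - c ^ 2)) * ((1 - R ^ 2) * (1 - d ^ 2))) := by
    have := mul_le_mul_of_nonneg_left h6 (sq_nonneg R)
    linarith
  have h9 : (R - c * d) ^ 2 * (1 - R ^ 2) ^ 2 ≤
      R ^ 2 * ((1 - c ^ 2) * (1 - d ^ 2)) * (1 - R ^ 2) ^ 2 := by
    linarith
  exact le_of_mul_le_mul_right h9 (by positivity)

/-- two vertices of large height -/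
theorem scal_psi {R c d : ℝ} (hR0 : 0 ≤ R) (hR1 : R ≤ 1) (h1 : R ≤ c * d)
    (hm : (R - c * d) ^ 2 ≤ (1 - c ^ 2) * (1 - d ^ 2)) :
    (R - c * d) ^ 2 * (1 - R ^ 2) ^ 2 ≤ (d - R * c) ^ 2 * (c - R * d) ^ 2 := by
  have hE : 0 ≤ 1 - R ^ 2 := by nlinarith
  have e1 : (d - R * c) * (c - R * d) - (c * d - R) * (1 - R ^ 2) =
      R * ((1 - c ^ 2) * (1 - d ^ 2) - (R - c * d) ^ 2) := by ring
  have h2 : 0 ≤ R * ((1 - c ^ 2) * (1 - d ^ 2) - (R - c * d) ^ 2) :=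
    mul_nonneg hR0 (by linarith)
  have h3 : (c * d - R) * (1 - R ^ 2) ≤ (d - R * c) * (c - R * d) := by linarith
  have h4 := mul_self_le_mul_self (mul_nonneg (sub_nonneg.2 h1) hE) h3
  have e2 : (c * d - R) * (1 - R ^ 2) * ((c * d - R) * (1 - R ^ 2)) =
      (R - c * d) ^ 2 * (1 - R ^ 2) ^ 2 := by ring
  have e3 : (d - R * c) * (c - R * d) * ((d - R * c) * (c - R * d)) =
      (d - R * c) ^ 2 * (c - R * d) ^ 2 := by ring
  linarith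

end Pool.Agent.Helper11.K1
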