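import Pool.Agent.Helper88.CE.Ball

/-!
# The two-sided inequality on an edge of a triangle-free graph
-/

open Finset Pool.Agent.Helper71.CE Pool.Agent.Helper88.CE

namespace Pool.Agent.Helper11.K1

variable {V : Type*} [Fintype V]

/-- Cauchy-Schwarz for a positive semidefinite form -/
theorem bil_cs {R : V → V → ℝ} (hP : Psd R) (x y : V → ℝ) :
    (∑ i, ∑ j, y i * R i j * x j) ^ 2 ≤ qf R x * qf R y := by
  let z : Bool → V → ℝ := fun b => cond b x y
  let B : Bool → Bool → ℝ := fun s t => ∑ i, ∑ j, z s i * R i j * z t j
  have hs : ∀ s t, B s t = B t s := by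
    intro s t
    show ∑ i, ∑ j, z s i * R i j * z t j = ∑ i, ∑ j, z t i * R i j * z s j
    rw [Finset.sum_comm]
    refine Finset.sum_congr rfl fun i _ => Finset.sum_congr rfl fun j _ => ?_
    rw [hP.1 j i]; ring
  have hB : Psd B := by
    refine ⟨hs, fun u => ?_⟩
    have h := hP.2 (fun l => u true * x l + u false * y l)
    have e : qf B u = qf R (fun l => u true * x l + u false * y l) := by
      have e1 : qf R (fun l => u true * x l + u false * y l) =
          u true * u true * (∑ i, ∑ j, x i * R i j * x j) +
          u true * u false * (∑ i, ∑ j, x i * R i j * y j) +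
          u false * u true * (∑ i, ∑ j, y i * R i j * x j) +
          u false * u false * (∑ i, ∑ j, y i * R i j * y j) := by
        simp only [qf, Finset.mul_sum, ← Finset.sum_add_distrib]
        refine Finset.sum_congr rfl fun i _ => Finset.sum_congr rfl fun j _ => by ring
      rw [e1]
      simp only [qf, Fintype.sum_bool]
      show u true * (∑ i, ∑ j, x i * R i j * x j) * u true +
          u true * (∑ i, ∑ j, x i * R i j * y j) * u false +
          (u false * (∑ i, ∑ j, y i * R i j * x j) * u true +
          u false * (∑ i, ∑ j, y i * R i j * y j) * u false) = _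
      ring
    rw [e]; exact h
  have h1 := hB.minor false true
  have h2 : (∑ i, ∑ j, y i * R i j * x j) ^ 2 ≤ qf R y * qf R x := h1
  linarith [mul_comm (qf R y) (qf R x)]

variable [DecidableEq V]

/-- the two-sided inequality on an edge of a triangle-free graph -/
theorem two_sided {G : SimpleGraph V} (hG : G.CliqueFree 3) {R : V → V → ℝ} (hR : InPG G R)
    (h1 : ∀ i, R i i = 1) {i k : V} (hik : G.Adj i k) :
    R i k ^ 2 ≤ rest R i k * rest R k i := by
  obtain ⟨hP, h0, hz⟩ := hR
  have htri : ∀ a b c, G.Adj a b → G.Adj b c → ¬ G.Adj a c := by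
    intro a b c hab hbc hac
    exact hG {a, b, c} (SimpleGraph.is3Clique_triple_iff.2 ⟨hab, hac, hbc⟩)
  have hadj : ∀ a b, a ≠ b → R a b ≠ 0 → G.Adj a b := by
    intro a b hab h
    by_contra hn
    exact h (hz a b hab hn)
  -- the test vector at `a` towards `b`
  let X : V → V → V → ℝ := fun a b l => if l = a then 1 else if l = b then 0 else -R a l
  -- the product `R X`
  have hRX : ∀ a b l, a ≠ b → ∑ j, R l j * X a b j = R l a -
      ∑ j, (if j = b ∨ j = a then 0 else R l j * R a j) := by
    intro a b l hab
    have e : ∀ j, R l j * X a b j = (if j = a then R l j else 0) -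
        (if j = b ∨ j = a then 0 else R l j * R a j) := by
      intro j
      show R l j * (if j = a then 1 else if j = b then 0 else -R a j) = _
      by_cases h1 : j = a
      · rw [if_pos h1, if_pos h1, if_pos (Or.inr h1)]; ring
      · by_cases h2 : j = b
        · rw [if_neg h1, if_pos h2, if_neg h1, if_pos (Or.inl h2)]; ring
        · rw [if_neg h1, if_neg h2, if_neg h1, if_neg (by push Not; exact ⟨h2, h1⟩)]; ring
    rw [Finset.sum_congr rfl fun j _ => e j, Finset.sum_sub_distrib, Finset.sum_ite_eq']
    simp
  have hqf : ∀ a b, a ≠ b → qf R (X a b) = rest R a b := by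
    intro a b hab
    have e1 : qf R (X a b) = ∑ l, X a b l * ∑ j, R l j * X a b j := by
      simp only [qf, Finset.mul_sum]
      refine Finset.sum_congr rfl fun l _ => Finset.sum_congr rfl fun j _ => by ring
    rw [e1, Finset.sum_eq_single a]
    · rw [hRX a b a hab, h1]
      show (if a = a then 1 else if a = b then 0 else -R a a) * _ = _
      rw [if_pos rfl, one_mul, rest]
      congr 1
      refine Finset.sum_congr rfl fun j _ => ?_
      split_ifs
      · rfl
      · ring
    · intro l _ hl
      by_cases hlb : l = b
      · show (if l = a then 1 else if l = b then 0 else -R a l) * _ = 0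
        rw [if_neg hl, if_pos hlb, zero_mul]
      · by_cases hRl : R a l = 0
        · show (if l = a then 1 else if l = b then 0 else -R a l) * _ = 0
          rw [if_neg hl, if_neg hlb, hRl, neg_zero, zero_mul]
        · have hal := hadj a l (Ne.symm hl) hRl
          rw [hRX a b l hab, Finset.sum_eq_single l]
          · rw [if_neg (by push Not; exact ⟨hlb, hl⟩), h1, hP.1 l a]; ring
          · intro j _ hj
            by_cases hjj : j = b ∨ j = a
            · rw [if_pos hjj]
            · rw [if_neg hjj]
              push Not at hjj
              by_contra hne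
              have g1 := hadj l j (Ne.symm hj) (left_ne_zero_of_mul hne)
              have g2 := hadj a j (Ne.symm hjj.2) (right_ne_zero_of_mul hne)
              exact htri a l j hal g1 g2
          · intro h; exact absurd (mem_univ l) h
    · intro h; exact absurd (mem_univ a) h
  have hB : R i k ≤ ∑ l, ∑ j, X k i l * R l j * X i k j := by
    have e1 : ∑ l, ∑ j, X k i l * R l j * X i k j = ∑ l, X k i l * ∑ j, R l j * X i k j := by
      simp only [Finset.mul_sum]
      refine Finset.sum_congr rfl fun l _ => Finset.sum_congr rfl fun j _ => by ring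
    have hk : X k i k * ∑ j, R k j * X i k j = R i k := by
      rw [hRX i k k hik.ne]
      show (if k = k then 1 else if k = i then 0 else -R k k) * _ = _
      rw [if_pos rfl, one_mul, hP.1 k i, Finset.sum_eq_zero, sub_zero]
      intro j _
      by_cases hjj : j = k ∨ j = i
      · rw [if_pos hjj]
      · rw [if_neg hjj]
        push Not at hjj
        by_contra hne
        have g1 := hadj k j (Ne.symm hjj.1) (left_ne_zero_of_mul hne)
        have g2 := hadj i j (Ne.symm hjj.2) (right_ne_zero_of_mul hne)
        exact htri i k j hik g1 g2
    rw [e1, ← hk]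
    refine Finset.single_le_sum (f := fun l => X k i l * ∑ j, R l j * X i k j) (fun l _ => ?_)
      (mem_univ k)
    by_cases hlk : l = k
    · subst hlk; rw [hk]; exact h0 _ _
    by_cases hli : l = i
    · show 0 ≤ (if l = k then 1 else if l = i then 0 else -R k l) * _
      rw [if_neg hlk, if_pos hli, zero_mul]
    · show 0 ≤ (if l = k then 1 else if l = i then 0 else -R k l) * _
      rw [if_neg hlk, if_neg hli]
      by_cases hRl : R k l = 0
      · rw [hRl]; simp
      · have hkl := hadj k l (Ne.symm hlk) hRl
        have hil : R l i = 0 := hz l i hli (fun h => htri i k l hik hkl h.symm)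
        rw [hRX i k l hik.ne, hil, zero_sub, neg_mul_neg]
        refine mul_nonneg (h0 _ _) (Finset.sum_nonneg fun j _ => ?_)
        split_ifs
        · exact le_rfl
        · exact mul_nonneg (h0 _ _) (h0 _ _)
  have hcs := bil_cs hP (X i k) (X k i)
  rw [hqf i k hik.ne, hqf k i hik.ne.symm] at hcs
  refine le_trans ?_ hcs
  have := h0 i k
  gcongr

end Pool.Agent.Helper11.K1
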