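import Pool.Agent.Helper88.CE.Weights

/-!
# The star of a vertex with one distinguished neighbour
-/

open Finset Pool.Agent.Helper71.CE Pool.Agent.Helper88.CE

namespace Pool.Agent.Helper11.K1

variable {V : Type*} [Fintype V] [DecidableEq V]

theorem sum_split (P : V → Prop) [DecidablePred P] {a : V} (ha : ¬ P a) (f : V → ℝ) :
    ∑ k, (if P k ∨ k = a then f k else 0) = f a + ∑ k, (if P k then f k else 0) := by
  have e : ∀ k, (if P k ∨ k = a then f k else 0) =
      (if k = a then f a else 0) + (if P k then f k else 0) := by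
    intro k
    by_cases hk : k = a
    · subst hk; simp [ha]
    · simp [hk]
  rw [Finset.sum_congr rfl fun k _ => e k, Finset.sum_add_distrib, Finset.sum_ite_eq']
  simp

theorem ite_sq' (p : Prop) [Decidable p] (x : ℝ) :
    (if p then x else 0) ^ 2 = if p then x ^ 2 else 0 := by
  split_ifs <;> simp

theorem ite_mul' (p : Prop) [Decidable p] (x y : ℝ) :
    (if p then x else 0) * (if p then y else 0) = if p then x * y else 0 := by
  split_ifs <;> simp

/-- the star constraint with one distinguished neighbour `a` -/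
theorem star_split {G : SimpleGraph V} (hG : G.CliqueFree 3) {R : V → V → ℝ} (hR : InPG G R)
    (h1 : ∀ i, R i i = 1) {c : V → ℝ} (hc : Psd (fun i j => R i j - c i * c j)) (i : V)
    (P : V → Prop) [DecidablePred P] (hP : ∀ k, P k → G.Adj i k) (a : V) (ha : G.Adj i a)
    (hPa : ¬ P a) :
    ∑ k, (if P k then R i k else 0) ^ 2 ≤ 1 - R i a ^ 2 ∧
    ∑ k, (if P k then c k else 0) ^ 2 ≤ 1 - c a ^ 2 ∧
    (c i - R i a * c a - ∑ k, (if P k then R i k else 0) * (if P k then c k else 0)) ^ 2 ≤
      (1 - R i a ^ 2 - ∑ k, (if P k then R i k else 0) ^ 2) *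
        (1 - c a ^ 2 - ∑ k, (if P k then c k else 0) ^ 2) := by
  obtain ⟨a1, a2, a3⟩ := star_local hG hR h1 hc i (fun k => P k ∨ k = a) (by
    rintro k (hk | hk)
    · exact hP k hk
    · rw [hk]; exact ha)
  simp only [ite_sq', ite_mul'] at a1 a2 a3 ⊢
  rw [sum_split P hPa (fun k => R i k ^ 2)] at a1 a3
  rw [sum_split P hPa (fun k => c k ^ 2)] at a2 a3
  rw [sum_split P hPa (fun k => R i k * c k)] at a3
  refine ⟨by linarith, by linarith, ?_⟩
  have e1 : c i - R i a * c a - ∑ k, (if P k then R i k * c k else 0) =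
      c i - (R i a * c a + ∑ k, (if P k then R i k * c k else 0)) := by ring
  have e2 : 1 - R i a ^ 2 - ∑ k, (if P k then R i k ^ 2 else 0) =
      1 - (R i a ^ 2 + ∑ k, (if P k then R i k ^ 2 else 0)) := by ring
  have e3 : 1 - c a ^ 2 - ∑ k, (if P k then c k ^ 2 else 0) =
      1 - (c a ^ 2 + ∑ k, (if P k then c k ^ 2 else 0)) := by ring
  rw [e1, e2, e3]
  exact a3

/-- `rest` in terms of the whole sum -/
theorem rest_eq {R : V → V → ℝ} {i j : V} (hij : j ≠ i) :
    rest R i j = 1 - (∑ k, if k = i then 0 else R i k ^ 2) + R i j ^ 2 := by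
  have e : ∀ k, (if k = i then (0:ℝ) else R i k ^ 2) =
      (if k = j ∨ k = i then 0 else R i k ^ 2) + (if k = j then R i j ^ 2 else 0) := by
    intro k
    by_cases hk : k = j
    · subst hk; simp [hij]
    · simp [hk]
  rw [rest, Finset.sum_congr rfl fun k _ => e k, Finset.sum_add_distrib, Finset.sum_ite_eq']
  rw [if_pos (mem_univ j)]
  ring

end Pool.Agent.Helper11.K1
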