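import Mathlib

/-!
# The star inequality at a vertex of large height
-/

open Finset

namespace Pool.Agent.Helper11.K1

theorem pair_ineq {x y : ℝ} (hx0 : 0 ≤ x) (hx1 : x ≤ 1) (hy0 : 0 ≤ y) (hy1 : y ≤ 1) :
    (x - y) ^ 2 ≤ (1 - x) ^ 2 * y + (1 - y) ^ 2 * x := by
  rcases le_total x y with h | h
  · have h1 : y - x ≤ y * (1 - x) := by nlinarith
    have h2 : (y - x) ^ 2 ≤ (y * (1 - x)) ^ 2 :=
      pow_le_pow_left₀ (by linarith) h1 2
    have h3 : (y * (1 - x)) ^ 2 ≤ (1 - x) ^ 2 * y := by
      have : y ^ 2 ≤ y := by nlinarith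
      nlinarith [sq_nonneg (1 - x)]
    have h4 : 0 ≤ (1 - y) ^ 2 * x := by positivity
    nlinarith
  · have h1 : x - y ≤ x * (1 - y) := by nlinarith
    have h2 : (x - y) ^ 2 ≤ (x * (1 - y)) ^ 2 :=
      pow_le_pow_left₀ (by linarith) h1 2
    have h3 : (x * (1 - y)) ^ 2 ≤ (1 - y) ^ 2 * x := by
      have : x ^ 2 ≤ x := by nlinarith
      nlinarith [sq_nonneg (1 - y)]
    have h4 : 0 ≤ (1 - x) ^ 2 * y := by positivity
    nlinarith

theorem gen_div (x u a : ℝ) (hu : u ≠ 0) :
    x / u ^ 2 * (u ^ 2 - a * u) = x * (1 - a / u) := by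
  field_simp

/-- the star inequality at a vertex of large height -/
theorem lem_star {ι : Type*} [Fintype ι] (p m : ι → ℝ) {H : ℝ} (hp : ∀ k, 0 ≤ p k)
    (hm0 : ∀ k, 0 ≤ m k) (hm1 : ∀ k, m k ≤ 1) (hP : ∑ k, p k ≤ 1) (hH0 : 0 ≤ H) (hH1 : H ≤ 1)
    (hst : H * (1 - ∑ k, m k * p k) ^ 2 ≤ (1 - H * ∑ k, m k ^ 2 * p k) * (1 - ∑ k, p k)) :
    ∑ k, p k * (1 - m k) ^ 2 * (1 - m k ^ 2 * H * p k) / (1 - m k * p k) ^ 2 ≤ 1 - H := by
  classical
  set P : ℝ := ∑ k, p k with hPd
  set A : ℝ := ∑ k, m k * p k with hA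
  set C : ℝ := ∑ k, m k ^ 2 * p k with hC
  set Dn : ℝ := (1 - A) ^ 2 + C * (1 - P) with hDn
  set α : ι → ℝ := fun k => p k * (1 - m k) ^ 2 / (1 - m k * p k) ^ 2 with hα
  have hAP : A ≤ P := by
    refine Finset.sum_le_sum fun k _ => ?_
    nlinarith [hp k, hm1 k]
  have hC0 : 0 ≤ C := Finset.sum_nonneg fun k _ => mul_nonneg (sq_nonneg _) (hp k)
  have hα0 : ∀ k, 0 ≤ α k := fun k => by
    exact div_nonneg (mul_nonneg (hp k) (sq_nonneg _)) (sq_nonneg _)
  have hpP : ∀ k, p k ≤ P := fun k => Finset.single_le_sum (f := p) (fun k _ => hp k) (mem_univ k)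
  have hDn0 : 0 ≤ Dn := by
    rw [hDn]
    have : 0 ≤ C * (1 - P) := mul_nonneg hC0 (by linarith)
    positivity
  -- rewriting the sum
  have e1 : ∑ k, p k * (1 - m k) ^ 2 * (1 - m k ^ 2 * H * p k) / (1 - m k * p k) ^ 2 =
      ∑ k, α k - H * ∑ k, α k * (m k ^ 2 * p k) := by
    rw [Finset.mul_sum, ← Finset.sum_sub_distrib]
    refine Finset.sum_congr rfl fun k _ => ?_
    rw [hα]; ring
  rw [e1]
  set a : ℝ := 1 - ∑ k, α k with ha
  set s : ℝ := 1 - ∑ k, α k * (m k ^ 2 * p k) with hs
  have hs0 : 0 ≤ s := by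
    have h1 : ∑ k, α k * (m k ^ 2 * p k) ≤ ∑ k, p k := by
      refine Finset.sum_le_sum fun k _ => ?_
      have hpk := hp k
      have hmk := hm0 k
      have hmk1 := hm1 k
      have hp1 : p k ≤ 1 := (hpP k).trans hP
      have h2 : (1 - m k) ^ 2 ≤ (1 - m k * p k) ^ 2 :=
        pow_le_pow_left₀ (by linarith) (by nlinarith) 2
      have h3 : 0 ≤ (1 - m k * p k) ^ 2 := sq_nonneg _
      have h4 : α k ≤ p k := by
        rw [hα]; simp only
        rcases h3.eq_or_lt with h3 | h3
        · rw [← h3, div_zero]; exact hpk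
        rw [div_le_iff₀ h3]
        exact mul_le_mul_of_nonneg_left h2 hpk
      have h5 : m k ^ 2 * p k ≤ 1 := by nlinarith
      calc α k * (m k ^ 2 * p k) ≤ p k * 1 :=
            mul_le_mul h4 h5 (mul_nonneg (sq_nonneg _) hpk) hpk
        _ = p k := mul_one _
    rw [hs]; linarith
  -- the main inequality
  have hmain : (1 - P) * s ≤ Dn * a := by
    -- termwise bound
    have h1 : ∀ j, α j * (Dn - (m j ^ 2 * p j) * (1 - P)) ≤
        p j * (1 - m j) ^ 2 * (1 - (A - m j * p j)) := by
      intro j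
      have hpj := hp j
      have hmj := hm0 j
      have hmj1 := hm1 j
      have hup : m j * p j ≤ p j := by nlinarith
      have hu1 : 0 ≤ 1 - m j * p j := by linarith [hpP j]
      set A' : ℝ := ∑ k ∈ univ.erase j, m k * p k with hA'
      set C' : ℝ := ∑ k ∈ univ.erase j, m k ^ 2 * p k with hC'
      set P' : ℝ := ∑ k ∈ univ.erase j, p k with hP'
      have eA : A = m j * p j + A' := (Finset.add_sum_erase _ (fun k => m k * p k) (mem_univ j)).symm
      have eC : C = m j ^ 2 * p j + C' :=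
        (Finset.add_sum_erase _ (fun k => m k ^ 2 * p k) (mem_univ j)).symm
      have eP : P = p j + P' := (Finset.add_sum_erase _ p (mem_univ j)).symm
      have hA'0 : 0 ≤ A' := Finset.sum_nonneg fun k _ => mul_nonneg (hm0 k) (hp k)
      have hA'P : A' ≤ P' := Finset.sum_le_sum fun k _ => by nlinarith [hp k, hm1 k]
      have hC'A : C' ≤ A' := Finset.sum_le_sum fun k _ => by
        have : m k ^ 2 ≤ m k := by nlinarith [hm0 k, hm1 k]
        exact mul_le_mul_of_nonneg_right this (hp k)
      have h2 : Dn - (m j ^ 2 * p j) * (1 - P) ≤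
          (1 - m j * p j) ^ 2 - A' * (1 - m j * p j) := by
        have e : Dn - (m j ^ 2 * p j) * (1 - P) = (1 - m j * p j - A') ^ 2 + C' * (1 - P) := by
          rw [hDn, eA, eC]; ring
        rw [e]
        have h3 : C' * (1 - P) ≤ A' * (1 - P) := mul_le_mul_of_nonneg_right hC'A (by linarith)
        have h4 : A' * (A' + (1 - P)) ≤ A' * (1 - m j * p j) := by
          refine mul_le_mul_of_nonneg_left ?_ hA'0
          rw [eP]; linarith
        nlinarith
      have h5 : α j * (Dn - (m j ^ 2 * p j) * (1 - P)) ≤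
          α j * ((1 - m j * p j) ^ 2 - A' * (1 - m j * p j)) :=
        mul_le_mul_of_nonneg_left h2 (hα0 j)
      have h8 : A - m j * p j = A' := by rw [eA]; ring
      rw [h8]
      rcases hu1.eq_or_lt with hu0 | hu0
      · have h9 : α j = 0 := by
          rw [hα]; simp only
          rw [← hu0]; simp
        have h10 : A' ≤ 1 := by linarith
        rw [h9, zero_mul]
        exact mul_nonneg (mul_nonneg hpj (sq_nonneg _)) (by linarith)
      have h6 : α j * ((1 - m j * p j) ^ 2 - A' * (1 - m j * p j)) =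
          p j * (1 - m j) ^ 2 * (1 - A' / (1 - m j * p j)) := by
        rw [hα]; simp only
        exact gen_div _ _ _ hu0.ne'
      have h7 : A' ≤ A' / (1 - m j * p j) := by
        rw [le_div_iff₀ hu0]
        have := mul_nonneg hmj hpj
        nlinarith
      refine h5.trans ?_
      rw [h6]
      refine mul_le_mul_of_nonneg_left (by linarith) (mul_nonneg hpj (sq_nonneg _))
    have h2 : ∑ j, α j * (Dn - (m j ^ 2 * p j) * (1 - P)) ≤
        ∑ j, p j * (1 - m j) ^ 2 * (1 - (A - m j * p j)) := Finset.sum_le_sum fun j _ => h1 j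
    have e2 : ∑ j, α j * (Dn - (m j ^ 2 * p j) * (1 - P)) = Dn * (1 - a) - (1 - P) * (1 - s) := by
      have : ∀ j, α j * (Dn - (m j ^ 2 * p j) * (1 - P)) =
          Dn * α j - (1 - P) * (α j * (m j ^ 2 * p j)) := fun j => by ring
      rw [Finset.sum_congr rfl fun j _ => this j, Finset.sum_sub_distrib, ← Finset.mul_sum,
        ← Finset.mul_sum, ha, hs]
      ring
    have e3 : ∑ j, p j * (1 - m j) ^ 2 * (1 - (A - m j * p j)) =
        (P - 2 * A + C) - ∑ j, p j * (1 - m j) ^ 2 * (A - m j * p j) := by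
      have e4 : P - 2 * A + C = ∑ j, p j * (1 - m j) ^ 2 := by
        rw [hPd, hA, hC, Finset.mul_sum, ← Finset.sum_sub_distrib, ← Finset.sum_add_distrib]
        exact Finset.sum_congr rfl fun j _ => by ring
      rw [e4, ← Finset.sum_sub_distrib]
      exact Finset.sum_congr rfl fun j _ => by ring
    -- the pairs
    have h3 : P * C - A ^ 2 ≤ ∑ j, p j * (1 - m j) ^ 2 * (A - m j * p j) := by
      have e5 : 2 * (P * C - A ^ 2) = ∑ j, ∑ k, p j * p k * (m j - m k) ^ 2 := by
        have e6 : ∑ j, ∑ k, p j * p k * (m j - m k) ^ 2 =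
            ∑ j, ∑ k, ((m j ^ 2 * p j) * p k - 2 * ((m j * p j) * (m k * p k)) +
              p j * (m k ^ 2 * p k)) :=
          Finset.sum_congr rfl fun j _ => Finset.sum_congr rfl fun k _ => by ring
        rw [e6]
        simp only [Finset.sum_add_distrib, Finset.sum_sub_distrib, ← Finset.mul_sum,
          ← Finset.sum_mul]
        rw [← hPd, ← hA, ← hC]
        ring
      have e7 : 2 * ∑ j, p j * (1 - m j) ^ 2 * (A - m j * p j) =
          ∑ j, ∑ k, (if j = k then 0 else p j * p k * ((1 - m j) ^ 2 * m k + (1 - m k) ^ 2 * m j)) := by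
        have e8 : ∀ j, p j * (1 - m j) ^ 2 * (A - m j * p j) =
            ∑ k, (if j = k then 0 else p j * p k * ((1 - m j) ^ 2 * m k)) := by
          intro j
          have e9 : A - m j * p j = ∑ k ∈ univ.erase j, m k * p k := by
            rw [hA, ← Finset.add_sum_erase _ (fun k => m k * p k) (mem_univ j)]
            ring
          rw [e9, Finset.mul_sum, ← Finset.add_sum_erase univ _ (mem_univ j), if_pos rfl, zero_add]
          refine Finset.sum_congr rfl fun k hk => ?_
          rw [if_neg (Finset.ne_of_mem_erase hk).symm]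
          ring
        rw [Finset.sum_congr rfl fun j _ => e8 j, two_mul]
        nth_rw 2 [Finset.sum_comm]
        rw [← Finset.sum_add_distrib]
        refine Finset.sum_congr rfl fun j _ => ?_
        rw [← Finset.sum_add_distrib]
        refine Finset.sum_congr rfl fun k _ => ?_
        by_cases hjk : j = k
        · subst hjk; simp
        · rw [if_neg hjk, if_neg (Ne.symm hjk), if_neg hjk]; ring
      have h4 : 2 * (P * C - A ^ 2) ≤ 2 * ∑ j, p j * (1 - m j) ^ 2 * (A - m j * p j) := by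
        rw [e5, e7]
        refine Finset.sum_le_sum fun j _ => Finset.sum_le_sum fun k _ => ?_
        by_cases hjk : j = k
        · subst hjk; simp
        · rw [if_neg hjk]
          exact mul_le_mul_of_nonneg_left (pair_ineq (hm0 j) (hm1 j) (hm0 k) (hm1 k))
            (mul_nonneg (hp j) (hp k))
      linarith
    have e4 : Dn - (1 - P) = (P - 2 * A + C) - (P * C - A ^ 2) := by rw [hDn]; ring
    rw [e2, e3] at h2
    nlinarith
  have hHD : H * Dn ≤ 1 - P := by
    have : H * Dn = H * (1 - A) ^ 2 + H * C * (1 - P) := by rw [hDn]; ring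
    rw [this]; linarith
  rcases hDn0.eq_or_lt with h0 | h0
  · -- degenerate case
    have h1 : (1 - A) ^ 2 = 0 := by
      have h2 : 0 ≤ C * (1 - P) := mul_nonneg hC0 (by linarith)
      have h3 := sq_nonneg (1 - A)
      rw [hDn] at h0
      linarith
    have hA1 : A = 1 := by nlinarith
    have hz : ∑ k, p k * (1 - m k) ≤ 0 := by
      have : ∑ k, p k * (1 - m k) = P - A := by
        rw [hPd, hA, ← Finset.sum_sub_distrib]
        exact Finset.sum_congr rfl fun k _ => by ring
      rw [this]; linarith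
    have hz2 : ∀ k, p k * (1 - m k) = 0 := by
      intro k
      have h3 : ∀ l ∈ univ, 0 ≤ p l * (1 - m l) := fun l _ =>
        mul_nonneg (hp l) (by linarith [hm1 l])
      have h4 := Finset.sum_nonneg h3
      exact (Finset.sum_eq_zero_iff_of_nonneg h3).1 (le_antisymm hz h4) k (mem_univ k)
    have hα00 : ∀ k, α k = 0 := by
      intro k
      rw [hα]; simp only
      have : p k * (1 - m k) ^ 2 = (p k * (1 - m k)) * (1 - m k) := by ring
      rw [this, hz2 k]; simp
    have e5 : ∑ k, α k = 0 := Finset.sum_eq_zero fun k _ => hα00 k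
    have e6 : ∑ k, α k * (m k ^ 2 * p k) = 0 := Finset.sum_eq_zero fun k _ => by rw [hα00 k]; ring
    rw [e5, e6]; linarith
  · have h1 : H * s ≤ a := by
      have h2 : Dn * (H * s) ≤ Dn * a := by
        calc Dn * (H * s) = (H * Dn) * s := by ring
          _ ≤ (1 - P) * s := mul_le_mul_of_nonneg_right hHD hs0
          _ ≤ Dn * a := hmain
      exact le_of_mul_le_mul_left h2 h0
    have e5 : ∑ k, α k = 1 - a := by rw [ha]; ring
    have e6 : ∑ k, α k * (m k ^ 2 * p k) = 1 - s := by rw [hs]; ring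
    rw [e5, e6]
    nlinarith

end Pool.Agent.Helper11.K1
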