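import Pool.Agent.Helper11.K1.Scal
import Pool.Agent.Helper11.K1.Split
import Pool.Agent.Helper11.K1.Sided

/-!
# The edge weights for triangle-free graphs
-/

open Finset Pool.Agent.Helper71.CE Pool.Agent.Helper88.CE

namespace Pool.Agent.Helper11.K1

variable {V : Type*} [Fintype V] [DecidableEq V]

/-- the data: a correlation matrix with pattern `G` and a vector below it -/
structure Dat (G : SimpleGraph V) (R : V → V → ℝ) (c : V → ℝ) : Prop where
  hG : G.CliqueFree 3
  hR : InPG G R
  h1 : ∀ i, R i i = 1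
  hc0 : ∀ i, 0 ≤ c i
  hc : Psd (fun i j => R i j - c i * c j)

/-- the squared partial correlation -/
noncomputable def del (R : V → V → ℝ) (c : V → ℝ) (i j : V) : ℝ :=
  (R i j - c i * c j) ^ 2 / ((1 - c i ^ 2) * (1 - c j ^ 2))

/-- the squared cosine of the angle at `i` -/
noncomputable def psi (R : V → V → ℝ) (c : V → ℝ) (i j : V) : ℝ :=
  (c j - R i j * c i) ^ 2 / ((1 - R i j ^ 2) * (1 - c i ^ 2))

/-- `i` is dominated by some vertex -/
def Domd (R : V → V → ℝ) (c : V → ℝ) (i : V) : Prop := ∃ j, j ≠ i ∧ c i < R i j * c j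

/-- the special vertices -/
def Spec (R : V → V → ℝ) (c : V → ℝ) (i : V) : Prop := ¬ Domd R c i ∧ 1 < 2 * c i ^ 2

open Classical in
/-- the share of a negative edge -/
noncomputable def lam (R : V → V → ℝ) (c : V → ℝ) (i j : V) : ℝ :=
  if Spec R c j then psi R c i j
  else if Spec R c i then del R c i j / psi R c j i
  else (c i * c j - R i j) * c j / (c i * (1 - c i ^ 2))

open Classical in
/-- the weights -/
noncomputable def wt (G : SimpleGraph V) (R : V → V → ℝ) (c : V → ℝ) (i j : V) : ℝ :=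
  if G.Adj i j then
    if R i j < c i * c j then rest R i j * lam R c i j
    else if c i < R i j * c j then del R c i j else R i j ^ 2
  else 0

section

variable {G : SimpleGraph V} {R : V → V → ℝ} {c : V → ℝ}

theorem Dat.s0 (D : Dat G R c) (i : V) : 0 ≤ 1 - c i ^ 2 := by
  have := D.hc.diag_nonneg i
  simp only [D.h1] at this
  nlinarith

theorem Dat.c1 (D : Dat G R c) (i : V) : c i ≤ 1 := by
  have := D.s0 i
  nlinarith [D.hc0 i]

theorem Dat.hmin (D : Dat G R c) (i j : V) :
    (R i j - c i * c j) ^ 2 ≤ (1 - c i ^ 2) * (1 - c j ^ 2) := by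
  have := D.hc.minor i j
  simp only [D.h1] at this
  nlinarith

theorem Dat.sym (D : Dat G R c) (i j : V) : R i j = R j i := D.hR.1.1 i j

theorem Dat.R0 (D : Dat G R c) (i j : V) : 0 ≤ R i j := D.hR.2.1 i j

theorem Dat.R1 (D : Dat G R c) (i j : V) : R i j ≤ 1 := by
  have := D.hR.1.minor i j
  simp only [D.h1] at this
  nlinarith [D.R0 i j]

theorem Dat.Rz (D : Dat G R c) {i j : V} (hij : i ≠ j) (h : ¬ G.Adj i j) : R i j = 0 :=
  D.hR.2.2 i j hij h

/-- facts on a negative edge -/
theorem Dat.neg (D : Dat G R c) {i j : V} (h : R i j < c i * c j) :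
    0 < c i ∧ 0 < c j ∧ 0 < 1 - c i ^ 2 ∧ 0 < 1 - c j ^ 2 ∧ R i j < 1 ∧ 0 < 1 - R i j ^ 2 ∧
      0 < c i - R i j * c j ∧ 0 < c j - R i j * c i := by
  have h0 := D.R0 i j
  have hi := D.hc0 i
  have hj := D.hc0 j
  have hpos : 0 < c i * c j := lt_of_le_of_lt h0 h
  have hi' : 0 < c i := by
    rcases hi.eq_or_lt with e | e
    · rw [← e, zero_mul] at hpos; exact absurd hpos (lt_irrefl _)
    · exact e
  have hj' : 0 < c j := by
    rcases hj.eq_or_lt with e | e
    · rw [← e, mul_zero] at hpos; exact absurd hpos (lt_irrefl _)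
    · exact e
  have hm := D.hmin i j
  have hW : 0 < (R i j - c i * c j) ^ 2 := by
    have : R i j - c i * c j ≠ 0 := by linarith
    positivity
  have hss : 0 < (1 - c i ^ 2) * (1 - c j ^ 2) := lt_of_lt_of_le hW hm
  have hsi : 0 < 1 - c i ^ 2 := by
    rcases (D.s0 i).eq_or_lt with e | e
    · rw [← e, zero_mul] at hss; exact absurd hss (lt_irrefl _)
    · exact e
  have hsj : 0 < 1 - c j ^ 2 := by
    rcases (D.s0 j).eq_or_lt with e | e
    · rw [← e, mul_zero] at hss; exact absurd hss (lt_irrefl _)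
    · exact e
  have hR1 : R i j < 1 := by nlinarith [D.c1 i, D.c1 j]
  refine ⟨hi', hj', hsi, hsj, hR1, by nlinarith, ?_, ?_⟩
  · have : R i j * c j < c i * c j * c j := mul_lt_mul_of_pos_right h hj'
    nlinarith
  · have : R i j * c i < c i * c j * c i := mul_lt_mul_of_pos_right h hi'
    nlinarith

theorem Dat.rest0 (D : Dat G R c) {i j : V} (hij : i ≠ j) : R i j ^ 2 ≤ rest R i j :=
  rest_ge D.hG D.hR D.h1 hij.symm

theorem Dat.psi0 (D : Dat G R c) (i j : V) : 0 ≤ psi R c i j := by
  have h1 := D.s0 i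
  have h2 : 0 ≤ 1 - R i j ^ 2 := by nlinarith [D.R0 i j, D.R1 i j]
  rw [psi]
  positivity

theorem Dat.psi_pos (D : Dat G R c) {i j : V} (h : R i j < c i * c j) : 0 < psi R c i j := by
  obtain ⟨a1, a2, a3, a4, a5, a6, a7, a8⟩ := D.neg h
  rw [psi]
  positivity

theorem Dat.del0 (D : Dat G R c) (i j : V) : 0 ≤ del R c i j := by
  have h1 := D.s0 i
  have h2 := D.s0 j
  rw [del]
  positivity

theorem Dat.del_symm (D : Dat G R c) (i j : V) : del R c i j = del R c j i := by
  rw [del, del, D.sym i j, mul_comm (c i) (c j), mul_comm (1 - c i ^ 2)]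

theorem Dat.lam0 (D : Dat G R c) {i j : V} (h : R i j < c i * c j) : 0 ≤ lam R c i j := by
  obtain ⟨a1, a2, a3, a4, a5, a6, a7, a8⟩ := D.neg h
  rw [lam]
  split_ifs
  · exact D.psi0 i j
  · exact div_nonneg (D.del0 i j) (D.psi0 j i)
  · have : 0 ≤ c i * c j - R i j := by linarith
    positivity

theorem Dat.wt0 (D : Dat G R c) (i j : V) : 0 ≤ wt G R c i j := by
  rw [wt]
  split_ifs with h1 h2 h3
  · exact mul_nonneg ((sq_nonneg _).trans (D.rest0 h1.ne)) (D.lam0 h2)
  · exact D.del0 i j
  · exact sq_nonneg _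
  · exact le_refl _

theorem Dat.lam_mul (D : Dat G R c) {i j : V} (h : R i j < c i * c j) :
    (R i j - c i * c j) ^ 2 ≤ lam R c i j * lam R c j i * ((1 - c i ^ 2) * (1 - c j ^ 2)) := by
  obtain ⟨a1, a2, a3, a4, a5, a6, a7, a8⟩ := D.neg h
  have h' : R j i < c j * c i := by rw [← D.sym i j, mul_comm]; exact h
  have hd : del R c i j * ((1 - c i ^ 2) * (1 - c j ^ 2)) = (R i j - c i * c j) ^ 2 := by
    rw [del, div_mul_cancel₀ _ (mul_pos a3 a4).ne']
  by_cases hj : Spec R c j
  · by_cases hi : Spec R c i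
    · rw [lam, lam, if_pos hj, if_pos hi, psi, psi, ← D.sym i j]
      have := scal_psi (D.R0 i j) (D.R1 i j) h.le (D.hmin i j)
      have e : (c j - R i j * c i) ^ 2 / ((1 - R i j ^ 2) * (1 - c i ^ 2)) *
          ((c i - R i j * c j) ^ 2 / ((1 - R i j ^ 2) * (1 - c j ^ 2))) *
          ((1 - c i ^ 2) * (1 - c j ^ 2)) =
          (c j - R i j * c i) ^ 2 * (c i - R i j * c j) ^ 2 / (1 - R i j ^ 2) ^ 2 := by
        field_simp
      rw [e, le_div_iff₀ (by positivity)]
      exact this
    · rw [lam, lam, if_pos hj, if_neg hi, if_pos hj, ← D.del_symm i j,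
        mul_div_cancel₀ _ (D.psi_pos h).ne', hd]
  · by_cases hi : Spec R c i
    · rw [lam, lam, if_neg hj, if_pos hi, if_pos hi, div_mul_cancel₀ _ (D.psi_pos h').ne', hd]
    · rw [lam, lam, if_neg hj, if_neg hi, if_neg hi, if_neg hj, ← D.sym i j]
      refine le_of_eq ?_
      field_simp
      ring

theorem Dat.prod (D : Dat G R c) {i j : V} (hij : i ≠ j) :
    R i j ^ 2 * (R i j - c i * c j) ^ 2 ≤
      wt G R c i j * wt G R c j i * ((1 - c i ^ 2) * (1 - c j ^ 2)) := by
  have hss : 0 ≤ (1 - c i ^ 2) * (1 - c j ^ 2) := mul_nonneg (D.s0 i) (D.s0 j)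
  have hnn : 0 ≤ wt G R c i j * wt G R c j i * ((1 - c i ^ 2) * (1 - c j ^ 2)) :=
    mul_nonneg (mul_nonneg (D.wt0 i j) (D.wt0 j i)) hss
  by_cases hadj : G.Adj i j
  swap
  · rw [D.Rz hij hadj]
    simpa using hnn
  by_cases hneg : R i j < c i * c j
  · have hneg' : R j i < c j * c i := by rw [← D.sym i j, mul_comm]; exact hneg
    have e1 : wt G R c i j = rest R i j * lam R c i j := by
      rw [wt, if_pos hadj, if_pos hneg]
    have e2 : wt G R c j i = rest R j i * lam R c j i := by
      rw [wt, if_pos hadj.symm, if_pos hneg']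
    rw [e1, e2]
    have h2 := two_sided D.hG D.hR D.h1 hadj
    have h3 := D.lam_mul hneg
    calc R i j ^ 2 * (R i j - c i * c j) ^ 2
        ≤ (rest R i j * rest R j i) *
          (lam R c i j * lam R c j i * ((1 - c i ^ 2) * (1 - c j ^ 2))) :=
          mul_le_mul h2 h3 (sq_nonneg _) ((sq_nonneg _).trans h2)
      _ = _ := by ring
  · have hneg' : ¬ R j i < c j * c i := by rw [← D.sym i j, mul_comm]; exact hneg
    have hW : 0 ≤ R i j - c i * c j := by linarith [not_lt.1 hneg]
    have hm := D.hmin i j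
    -- the value of the product with `del`
    have hdel : (R i j - c i * c j) ^ 2 ≤ del R c i j * ((1 - c i ^ 2) * (1 - c j ^ 2)) := by
      rcases hss.eq_or_lt with e | e
      · rw [← e] at hm ⊢; linarith
      · rw [del, div_mul_cancel₀ _ e.ne']
    by_cases d1 : c i < R i j * c j
    · have d2 : ¬ c j < R j i * c i := by
        intro d2
        rw [← D.sym i j] at d2
        have := D.R1 i j
        have hi := D.hc0 i
        have hj := D.hc0 j
        nlinarith
      have e1 : wt G R c i j = del R c i j := by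
        rw [wt, if_pos hadj, if_neg hneg, if_pos d1]
      have e2 : wt G R c j i = R i j ^ 2 := by
        rw [wt, if_pos hadj.symm, if_neg hneg', if_neg d2, ← D.sym i j]
      rw [e1, e2]
      have := mul_le_mul_of_nonneg_left hdel (sq_nonneg (R i j))
      linarith
    · by_cases d2 : c j < R j i * c i
      · have e1 : wt G R c i j = R i j ^ 2 := by
          rw [wt, if_pos hadj, if_neg hneg, if_neg d1]
        have e2 : wt G R c j i = del R c i j := by
          rw [wt, if_pos hadj.symm, if_neg hneg', if_pos d2, D.del_symm i j]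
        rw [e1, e2]
        have := mul_le_mul_of_nonneg_left hdel (sq_nonneg (R i j))
        linarith
      · have e1 : wt G R c i j = R i j ^ 2 := by
          rw [wt, if_pos hadj, if_neg hneg, if_neg d1]
        have e2 : wt G R c j i = R i j ^ 2 := by
          rw [wt, if_pos hadj.symm, if_neg hneg', if_neg d2, ← D.sym i j]
        rw [e1, e2]
        have h2' : R i j * c i ≤ c j := by rw [D.sym i j]; exact not_lt.1 d2
        have := scal_acute (D.R0 i j) (D.R1 i j) (not_lt.1 d1) h2' hW
          (by linarith [D.s0 i]) (by linarith [D.s0 j]) hm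
        have := mul_le_mul_of_nonneg_left this (sq_nonneg (R i j))
        linarith

/-- two special vertices are not both neighbours of a vertex -/
theorem Dat.spec_unique (D : Dat G R c) {i j k : V} (hj : G.Adj i j) (hk : G.Adj i k)
    (sj : Spec R c j) (sk : Spec R c k) : j = k := by
  by_contra hjk
  classical
  obtain ⟨-, a2, -⟩ := star_split D.hG D.hR D.h1 D.hc i (fun l => l = k)
    (by rintro l rfl; exact hk) j hj hjk
  have e : ∑ l, (if l = k then c l else 0) ^ 2 = c k ^ 2 := by
    simp only [ite_sq']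
    rw [Finset.sum_ite_eq']
    simp
  rw [e] at a2
  have := sj.2
  have := sk.2
  linarith

end

end Pool.Agent.Helper11.K1
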